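import Pool.Agent.Helper41.Girth4.Defs

/-!
# Elementary facts on Pr
-/

namespace Pool.Agent.Helper41.Girth4

variable {α β ι : Type*}

theorem Pr_eq_card [Fintype α] (A : α → Prop) [DecidablePred A] :
    Pr A = ((Finset.univ.filter A).card : ℝ) / Fintype.card α := by
  unfold Pr
  rw [Nat.card_eq_fintype_card, Nat.card_eq_fintype_card, Fintype.card_subtype]

/-- `Pr` as a normalised sum of indicators. -/
theorem Pr_eq_sum [Fintype α] (A : α → Prop) [DecidablePred A] :
    Pr A = (∑ x, if A x then (1 : ℝ) else 0) / Fintype.card α := by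
  rw [Pr_eq_card, Finset.sum_boole]

theorem Pr_nonneg (A : α → Prop) : 0 ≤ Pr A := by unfold Pr; positivity

theorem Pr_congr {A B : α → Prop} (h : ∀ x, A x ↔ B x) : Pr A = Pr B := by
  have : A = B := funext fun x => propext (h x)
  rw [this]

theorem Pr_mono [Finite α] {A B : α → Prop} (h : ∀ x, A x → B x) : Pr A ≤ Pr B := by
  classical
  have := Fintype.ofFinite α
  rw [Pr_eq_card, Pr_eq_card]
  gcongr
  exact h _

theorem Pr_le_one [Finite α] (A : α → Prop) : Pr A ≤ 1 := by
  classical
  have := Fintype.ofFinite α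
  rw [Pr_eq_card]
  apply div_le_one_of_le₀
  · exact_mod_cast Finset.card_le_univ _
  · positivity

theorem Pr_true [Finite α] [Nonempty α] : Pr (fun _ : α => True) = 1 := by
  classical
  have := Fintype.ofFinite α
  rw [Pr_eq_card]
  simp [Fintype.card_ne_zero]

theorem Pr_false : Pr (fun _ : α => False) = 0 := by
  unfold Pr
  simp

theorem Pr_or_le [Finite α] (A B : α → Prop) : Pr (fun x => A x ∨ B x) ≤ Pr A + Pr B := by
  classical
  have := Fintype.ofFinite α
  rw [Pr_eq_card, Pr_eq_card, Pr_eq_card, ← add_div, Finset.filter_or]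
  gcongr
  exact_mod_cast Finset.card_union_le _ _

theorem Pr_or [Finite α] {A B : α → Prop} (h : ∀ x, A x → ¬ B x) :
    Pr (fun x => A x ∨ B x) = Pr A + Pr B := by
  classical
  have := Fintype.ofFinite α
  rw [Pr_eq_card, Pr_eq_card, Pr_eq_card, ← add_div, Finset.filter_or,
    Finset.card_union_of_disjoint]
  · push_cast; rfl
  · rw [Finset.disjoint_filter]; intro x _; exact h x

theorem Pr_split [Finite α] (A B : α → Prop) :
    Pr A = Pr (fun x => A x ∧ B x) + Pr (fun x => A x ∧ ¬ B x) := by
  rw [← Pr_or (by tauto)]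
  apply Pr_congr
  intro x
  tauto

theorem Pr_and_not [Finite α] (A B : α → Prop) :
    Pr (fun x => A x ∧ ¬ B x) = Pr A - Pr (fun x => A x ∧ B x) := by
  rw [Pr_split A B]; ring

theorem Pr_not [Finite α] [Nonempty α] (A : α → Prop) : Pr (fun x => ¬ A x) = 1 - Pr A := by
  have := Pr_split (fun _ : α => True) A
  simp only [true_and, Pr_true] at this
  linarith

theorem Pr_exists_le [Finite α] (s : Finset ι) (A : ι → α → Prop) :
    Pr (fun x => ∃ i ∈ s, A i x) ≤ ∑ i ∈ s, Pr (A i) := by
  classical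
  induction s using Finset.induction_on with
  | empty => simp [Pr_false]
  | insert a s ha ih =>
    rw [Finset.sum_insert ha]
    refine le_trans ?_ (add_le_add_right ih _)
    refine le_trans (Pr_mono ?_) (Pr_or_le _ _)
    intro x hx
    obtain ⟨i, hi, hx⟩ := hx
    rcases Finset.mem_insert.1 hi with rfl | hi
    · exact Or.inl hx
    · exact Or.inr ⟨i, hi, hx⟩

/-- Splitting according to the value of a function. -/
theorem Pr_fiber [Finite α] (A : α → Prop) {s : Finset ι} (f : α → ι) (hf : ∀ x, A x → f x ∈ s) :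
    Pr A = ∑ i ∈ s, Pr (fun x => A x ∧ f x = i) := by
  classical
  have := Fintype.ofFinite α
  simp_rw [Pr_eq_sum]
  rw [← Finset.sum_div]
  congr 1
  rw [Finset.sum_comm]
  apply Finset.sum_congr rfl
  intro x _
  by_cases hx : A x
  · simp [hx, hf x hx]
  · simp [hx]

theorem Pr_equiv (e : α ≃ β) (A : β → Prop) : Pr (fun x => A (e x)) = Pr A := by
  unfold Pr
  rw [Nat.card_congr e, Nat.card_congr (e.subtypeEquiv (p := fun x => A (e x)) (q := A) (by simp))]

theorem Pr_prod (A : α → Prop) (B : β → Prop) :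
    Pr (fun z : α × β => A z.1 ∧ B z.2) = Pr A * Pr B := by
  unfold Pr
  rw [Nat.card_prod, div_mul_div_comm]
  congr 1
  · rw [← Nat.cast_mul, ← Nat.card_prod]
    congr 1
    apply Nat.card_congr
    exact Equiv.subtypeProdEquivProd
  · push_cast; rfl

theorem Pr_fst [Finite β] [Nonempty β] (A : α → Prop) : Pr (fun z : α × β => A z.1) = Pr A := by
  have := Pr_prod (β := β) A (fun _ => True)
  simpa [Pr_true] using this

theorem Pr_snd [Finite α] [Nonempty α] (B : β → Prop) : Pr (fun z : α × β => B z.2) = Pr B := by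
  have := Pr_prod (α := α) (fun _ => True) B
  simpa [Pr_true] using this

/-- Averaging over the first coordinate. -/
theorem Pr_avg [Fintype α] [Finite β] (C : α → β → Prop) :
    Pr (fun z : α × β => C z.1 z.2) = (∑ a, Pr (C a)) / Fintype.card α := by
  classical
  have := Fintype.ofFinite β
  simp_rw [Pr_eq_sum]
  rw [Fintype.card_prod, Fintype.sum_prod_type, ← Finset.sum_div, div_div]
  push_cast
  rw [mul_comm (Fintype.card β : ℝ)]

/-- Monotonicity of averages: a bound uniform in the first coordinate. -/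
theorem Pr_le_of_forall [Finite α] [Finite β] (C : α → β → Prop) (b : ℝ)
    (h : ∀ a, Pr (C a) ≤ b) (hb : 0 ≤ b) : Pr (fun z : α × β => C z.1 z.2) ≤ b := by
  classical
  have := Fintype.ofFinite α
  rw [Pr_avg]
  rcases isEmpty_or_nonempty α with hα | hα
  · simpa using hb
  · rw [div_le_iff₀ (by exact_mod_cast Fintype.card_pos)]
    calc ∑ a, Pr (C a) ≤ ∑ _a : α, b := Finset.sum_le_sum fun a _ => h a
      _ = b * Fintype.card α := by simp [mul_comm]

theorem Pr_pi {ι : Type*} [Fintype ι] [DecidableEq ι] [Finite α] (A : ι → α → Prop) :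
    Pr (fun x : ι → α => ∀ i, A i (x i)) = ∏ i, Pr (A i) := by
  classical
  have := Fintype.ofFinite α
  unfold Pr
  rw [Finset.prod_div_distrib]
  congr 1
  · rw [← Nat.cast_prod, ← Nat.card_pi]
    congr 1
    exact Nat.card_congr
      { toFun := fun x i => ⟨x.1 i, x.2 i⟩
        invFun := fun y => ⟨fun i => (y i).1, fun i => (y i).2⟩
        left_inv := fun x => rfl
        right_inv := fun y => rfl }
  · rw [← Nat.cast_prod, ← Nat.card_pi]

/-- Clocks: the probability of ringing. -/
theorem Pr_clk {P : Par} {t : ℕ} (ht : t < P.K) {θ : ℕ} (hθ : θ ≤ P.N) :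
    Pr (fun u : Fin P.K → Fin P.N => clk P u t < θ) = (θ : ℝ) / P.N := by
  classical
  have h1 : Pr (fun u : Fin P.K → Fin P.N => clk P u t < θ)
      = Pr (fun u : Fin P.K → Fin P.N => ∀ i, (if i = ⟨t, ht⟩ then (fun x : Fin P.N => (x : ℕ) < θ)
        else fun _ => True) (u i)) := by
    apply Pr_congr
    intro u
    constructor
    · intro h i
      by_cases hi : i = ⟨t, ht⟩
      · subst hi
        simpa [clk, ht] using h
      · simp [hi]
    · intro h
      have := h ⟨t, ht⟩
      simpa [clk, ht] using this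
  rw [h1, Pr_pi, Finset.prod_eq_single (⟨t, ht⟩ : Fin P.K)]
  · simp only [if_true]
    rw [Pr_eq_card, Fintype.card_fin]
    congr 2
    have : (Finset.univ.filter fun x : Fin P.N => (x : ℕ) < θ).card = θ := by
      rw [Fin.card_filter_val_lt]
      exact min_eq_right hθ
    exact this
  · intro i _ hi
    simp [hi, Pr_true]
  · simp

/-- Number of values beaten by `a`. -/
theorem card_beats {M : ℕ} (hM : M % 2 = 1) [NeZero M] (a : ZMod M) :
    Nat.card {b : ZMod M // beats a b} = (M - 1) / 2 := by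
  classical
  have e : {b : ZMod M // beats a b} ≃ {x : ZMod M // 0 < x.val ∧ 2 * x.val < M} :=
    (Equiv.subLeft a).subtypeEquiv (by intro b; simp [beats])
  rw [Nat.card_congr e]
  have e2 : {x : ZMod M // 0 < x.val ∧ 2 * x.val < M} ≃ {x : Fin M // 0 < (x : ℕ) ∧ 2 * (x : ℕ) < M} :=
    { toFun := fun x => ⟨⟨x.1.val, ZMod.val_lt _⟩, x.2⟩
      invFun := fun x => ⟨((x.1 : ℕ) : ZMod M), by
        rw [ZMod.val_cast_of_lt x.1.2]; exact x.2⟩
      left_inv := fun x => by simp
      right_inv := fun x => by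
        apply Subtype.ext
        apply Fin.ext
        simp [ZMod.val_cast_of_lt x.1.2] }
  rw [Nat.card_congr e2, Nat.card_eq_fintype_card, Fintype.card_subtype]
  have : (Finset.univ.filter fun x : Fin M => 0 < (x : ℕ) ∧ 2 * (x : ℕ) < M).card
      = (Finset.Icc 1 ((M - 1) / 2)).card := by
    rw [← Finset.card_map Fin.valEmbedding]
    congr 1
    ext k
    simp only [Finset.mem_map, Finset.mem_filter, Finset.mem_univ, true_and, Fin.valEmbedding_apply,
      Finset.mem_Icc]
    constructor
    · rintro ⟨x, ⟨h1, h2⟩, rfl⟩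
      omega
    · rintro ⟨h1, h2⟩
      exact ⟨⟨k, by omega⟩, ⟨h1, by show 2 * k < M; omega⟩, rfl⟩
  rw [this]
  simp

theorem beats_asymm {M : ℕ} [NeZero M] {a b : ZMod M} (h : beats a b) : ¬ beats b a := by
  unfold beats at *
  intro h'
  have hne : a - b ≠ 0 := by
    intro h0
    rw [h0] at h
    simp at h
  have h1 : (b - a).val = M - (a - b).val := by
    rw [← neg_sub a b, ZMod.neg_val]
    simp [hne]
  have := ZMod.val_lt (a - b)
  omega

theorem Pr_beats {P : Par} (a : ZMod P.M) : Pr (fun b : ZMod P.M => beats a b) = bet P := by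
  unfold Pr bet
  rw [card_beats P.hM, Nat.card_zmod]
  have hM := P.hM
  have h2 : ((2 * ((P.M - 1) / 2) : ℕ) : ℝ) = (P.M : ℝ) - 1 := by
    have : 2 * ((P.M - 1) / 2) = P.M - 1 := by omega
    rw [this, Nat.cast_sub (by omega)]; simp
  push_cast at h2
  have hpos : (P.M : ℝ) ≠ 0 := by exact_mod_cast NeZero.ne P.M
  rw [← h2]
  field_simp

theorem Pr_not_beats {P : Par} (a : ZMod P.M) :
    Pr (fun b : ZMod P.M => ¬ beats a b) = bet' P := by
  rw [Pr_not, Pr_beats]
  unfold bet bet'
  have hpos : (P.M : ℝ) ≠ 0 := by exact_mod_cast NeZero.ne P.M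
  field_simp
  ring

/-- `beats b a` for random `b`. -/
theorem Pr_beats' {P : Par} (a : ZMod P.M) : Pr (fun b : ZMod P.M => beats b a) = bet P := by
  rw [← Pr_beats (P := P) a]
  have := Pr_equiv (Equiv.subLeft (a + a)) (fun b : ZMod P.M => beats b a)
  rw [← this]
  apply Pr_congr
  intro b
  simp only [Equiv.subLeft_apply, beats]
  have : a + a - b - a = a - b := by ring
  rw [this]

end Pool.Agent.Helper41.Girth4
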