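import Mathlib

/-!
# Definitions for MP_246f82_co (3-colourings of graphs of maximum degree 4 and large girth)

A `K`-round local rule on 4-regular port graphs. Every vertex has a label: clocks
`u_0, ..., u_(K-1)` in `Fin N` and a value in `ZMod M` (a tournament value).
In round `t` an alive vertex with `d` alive neighbours rings if `u_t < thr t d`; it joins `B` if it
beats all ringing neighbours; ringing vertices and neighbours of joining vertices are removed.
-/

namespace Pool.Agent.Helper41.Girth4

open Finset

/-- Parameters of the process. -/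
structure Par where
  /-- number of rounds -/
  K : ℕ
  /-- number of clock values -/
  N : ℕ
  /-- size of the tournament -/
  M : ℕ
  /-- ringing thresholds (round, number of alive neighbours) -/
  thr : ℕ → ℕ → ℕ
  hN : 0 < N
  hM : M % 2 = 1
  hthr : ∀ t d, thr t d ≤ N

variable (P : Par)

instance instNeZeroN : NeZero P.N := ⟨P.hN.ne'⟩

instance instNeZeroM : NeZero P.M := ⟨fun h => by have := P.hM; rw [h] at this; simp at this⟩

/-- Labels. -/
abbrev Lab : Type := (Fin P.K → Fin P.N) × ZMod P.M

/-- The clock value used in round `t` (it is `N`, i.e. silent, for `t ≥ K`). -/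
def clk (u : Fin P.K → Fin P.N) (t : ℕ) : ℕ := if h : t < P.K then (u ⟨t, h⟩ : ℕ) else P.N

variable {P}

/-- The tournament on `ZMod M`. -/
def beats {M : ℕ} (a b : ZMod M) : Prop := 0 < (a - b).val ∧ 2 * (a - b).val < M

/-- number of indices at which a predicate holds -/
noncomputable def cnt {n : ℕ} (A : Fin n → Prop) : ℕ := Nat.card {i // A i}

/-! ### The process on labelled infinite ternary trees

A tree is a function on words; the root has an additional (virtual) parent which is alive and does
not ring in the rounds considered. -/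

variable (P) in
/-- Labelled ternary trees. -/
abbrev Tr : Type := List (Fin 3) → Lab P

/-- The subtree at child `i`. -/
def sub (X : Tr P) (i : Fin 3) : Tr P := fun w => X (i :: w)

/-- The root rings in round `t` (with alive predicate `A`). -/
def RgOf (A : Tr P → Prop) (t : ℕ) (X : Tr P) : Prop :=
  A X ∧ clk P (X []).1 t < P.thr t (cnt (fun i => A (sub X i)) + 1)

/-- The root joins in round `t` (its parent does not ring). -/
def StOf (A : Tr P → Prop) (t : ℕ) (X : Tr P) : Prop :=
  RgOf A t X ∧ ∀ i, RgOf A t (sub X i) → beats (X []).2 (X [i]).2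

/-- The root is alive at time `t`, given that its parent is. -/
def Al : ℕ → Tr P → Prop
  | 0, _ => True
  | t + 1, X => Al t X ∧ ¬ RgOf (Al t) t X ∧ ∀ i, ¬ StOf (Al t) t (sub X i)

/-- The root rings in round `t`. -/
def Rg (t : ℕ) (X : Tr P) : Prop := RgOf (Al t) t X

/-- The root joins in round `t`. -/
def St (t : ℕ) (X : Tr P) : Prop := StOf (Al t) t X

/-! ### Port graphs -/

/-- A 4-regular port graph: port `i` of `v` leads to `nb v i`, entering there through the port
`rev v i`. -/
structure PG (V : Type*) where
  nb : V → Fin 4 → V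
  rev : V → Fin 4 → Fin 4
  nb_rev : ∀ v i, nb (nb v i) (rev v i) = v
  rev_rev : ∀ v i, rev (nb v i) (rev v i) = i

namespace PG

variable {V : Type*} (G : PG V)

/-- One non-backtracking step: `(v, q)` means that we are at `v`, having entered through port `q`. -/
def step (d : V × Fin 4) (c : Fin 3) : V × Fin 4 :=
  (G.nb d.1 (d.2.succAbove c), G.rev d.1 (d.2.succAbove c))

/-- Follow a word. -/
def go : V × Fin 4 → List (Fin 3) → V × Fin 4
  | d, [] => d
  | d, c :: w => go (G.step d c) w

/-- The labelled tree seen from `d`. -/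
def unf (ω : V → Lab P) (d : V × Fin 4) : Tr P := fun w => ω (G.go d w).1

variable (ω : V → Lab P)

/-- `v` rings in round `t` (with alive predicate `A`). -/
def ringOf (A : V → Prop) (t : ℕ) (v : V) : Prop :=
  A v ∧ clk P (ω v).1 t < P.thr t (cnt (fun i => A (G.nb v i)))

/-- `v` joins in round `t` (with alive predicate `A`). -/
def joinOf (A : V → Prop) (t : ℕ) (v : V) : Prop :=
  G.ringOf ω A t v ∧ ∀ i, G.ringOf ω A t (G.nb v i) → beats (ω v).2 (ω (G.nb v i)).2

/-- `v` is alive at time `t`. -/
def alive : ℕ → V → Prop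
  | 0, _ => True
  | t + 1, v => alive t v ∧ ¬ G.ringOf ω (alive t) t v ∧ ∀ i, ¬ G.joinOf ω (alive t) t (G.nb v i)

/-- `v` rings in round `t`. -/
def ring (t : ℕ) (v : V) : Prop := G.ringOf ω (G.alive ω t) t v

/-- `v` joins in round `t`. -/
def join (t : ℕ) (v : V) : Prop := G.joinOf ω (G.alive ω t) t v

/-- The set `B` of joined vertices. -/
def inB (v : V) : Prop := ∃ t < P.K, G.join ω t v

end PG

/-! ### The bad event for a path, in tree terms -/

/-- Number of path neighbours alive at time `t`, if they are removed at times `a` and `c`. -/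
def nn (a c t : ℕ) : ℕ := (if t ≤ a then 1 else 0) + (if t ≤ c then 1 else 0)

/-- A vertex with clocks `u`, side subtrees `Y` and `n t` further alive neighbours (none of which
ever joins) survives the rounds before `T`. -/
def surv {m : ℕ} (n : ℕ → ℕ) (T : ℕ) (u : Fin P.K → Fin P.N) (Y : Fin m → Tr P) : Prop :=
  ∀ t < T, ¬ (clk P u t < P.thr t (cnt (fun k => Al t (Y k)) + n t)) ∧ ∀ k, ¬ St t (Y k)

/-- A path vertex has removal time `s.1` and rings at that time iff `s.2`; its path neighbours are
removed at times `a`, `c`; `sat` says that one of them rings at time `s.1` and is not beaten. -/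
def Loc (a : ℕ) (s : ℕ × Bool) (c : ℕ) (sat : Prop) (l : Lab P) (Y : Fin 2 → Tr P) : Prop :=
  surv (nn a c) s.1 l.1 Y ∧
    ((s.2 = true ∧ clk P l.1 s.1 < P.thr s.1 (cnt (fun k => Al s.1 (Y k)) + nn a c s.1) ∧
        (sat ∨ ∃ k, Rg s.1 (Y k) ∧ ¬ beats l.2 (Y k []).2)) ∨
      (s.2 = false ∧ (s.1 < P.K →
        ¬ (clk P l.1 s.1 < P.thr s.1 (cnt (fun k => Al s.1 (Y k)) + nn a c s.1)) ∧
          ∃ k, St s.1 (Y k))))

variable (P) in
/-- Possible states of path vertices: removal time, and whether the vertex rings then. -/
def OK (s : ℕ × Bool) : Prop := s.1 ≤ P.K ∧ (s.2 = true → s.1 < P.K)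

/-- The bad event for the path with word `w` starting at the root of `X`, whose parent has state `p`
and tournament value `lp`, the root having state `s`. -/
def TB : ℕ × Bool → ZMod P.M → ℕ × Bool → List (Fin 3) → Tr P → Prop
  | _, _, _, [], _ => True
  | p, lp, s, c :: w, X => ∃ x : ℕ × Bool, OK P x ∧
      Loc p.1 s x.1
        ((p.2 = true ∧ p.1 = s.1 ∧ ¬ beats (X []).2 lp) ∨
          (x.2 = true ∧ x.1 = s.1 ∧ ¬ beats (X []).2 (X [c]).2))
        (X []) (fun k => sub X (c.succAbove k)) ∧
      TB s (X []).2 x w (sub X c)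

/-- The bad event for the path with word `w` starting at the root. -/
def TB0 : List (Fin 3) → Tr P → Prop
  | [], _ => True
  | c :: w, X => ∃ p s : ℕ × Bool, OK P p ∧ OK P s ∧ TB p (X []).2 s w (sub X c)

/-! ### Finite trees -/

/-- Positions in the ternary tree with `D` levels. -/
def Pos : ℕ → Type
  | 0 => Empty
  | D + 1 => Option (Fin 3 × Pos D)

instance instFintypePos : (D : ℕ) → Fintype (Pos D)
  | 0 => inferInstanceAs (Fintype Empty)
  | D + 1 =>
    letI := instFintypePos D
    inferInstanceAs (Fintype (Option (Fin 3 × Pos D)))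

instance instDecEqPos : (D : ℕ) → DecidableEq (Pos D)
  | 0 => inferInstanceAs (DecidableEq Empty)
  | D + 1 =>
    letI := instDecEqPos D
    inferInstanceAs (DecidableEq (Option (Fin 3 × Pos D)))

/-- The word of a position. -/
def word : (D : ℕ) → Pos D → List (Fin 3)
  | 0, z => nomatch z
  | _ + 1, none => []
  | D + 1, some (i, z) => i :: word D z

instance : Inhabited (Lab P) := ⟨fun _ => 0, 0⟩

/-- Extend a labelling of a finite tree to a labelling of the infinite tree. -/
def ext : (D : ℕ) → (Pos D → Lab P) → Tr P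
  | 0, _, _ => default
  | _ + 1, X, [] => X none
  | D + 1, X, i :: w => ext D (fun z => X (some (i, z))) w

/-- Words at which the bad event of the path `w` looks. -/
def Cat (D₀ : ℕ) (w : List (Fin 3)) : Set (List (Fin 3)) :=
  {z | ∃ k z', k ≤ w.length ∧ z = w.take k ++ z' ∧ z'.length ≤ D₀}

/-! ### Probability on finite types -/

/-- Probability of a predicate for a uniformly random element of a finite type. -/
noncomputable def Pr {α : Type*} (A : α → Prop) : ℝ := (Nat.card {x // A x} : ℝ) / Nat.card α

/-! ### The law of the process -/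

variable (P)

/-- Ringing probabilities. -/
noncomputable def pr (t d : ℕ) : ℝ := (P.thr t d : ℝ) / P.N

/-- Probability that a given value beats a random one. -/
noncomputable def bet : ℝ := ((P.M : ℝ) - 1) / (2 * P.M)

/-- Probability that a given value does not beat a random one. -/
noncomputable def bet' : ℝ := ((P.M : ℝ) + 1) / (2 * P.M)

variable {P}

/-- One round for the alive children: `q j` is the ringing probability with `j` alive children, `d`
the probability that an alive child is removed without joining. -/
noncomputable def stepY (m : ℕ) (q : ℕ → ℝ) (d : ℝ) (y : ℕ → ℝ) (j' : ℕ) : ℝ :=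
  ∑ j ∈ Finset.Icc j' m, (Nat.choose (m - j') (j - j') : ℝ) * y j * (1 - q j) * d ^ (j - j')

/-- Evaluation polynomial. -/
noncomputable def ev (m : ℕ) (q : ℕ → ℝ) (x : ℝ) (y : ℕ → ℝ) : ℝ :=
  ∑ j ∈ Finset.range (m + 1), (Nat.choose m j : ℝ) * y j * q j * x ^ j

/-- Weights of the sets of alive children: `q t j` is the ringing probability in round `t` with `j`
alive children, `δ t` the probability that a child is removed in round `t` without joining. -/
noncomputable def yG (m : ℕ) (q : ℕ → ℕ → ℝ) (δ : ℕ → ℝ) : ℕ → ℕ → ℝ
  | 0 => fun j => if j = m then 1 else 0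
  | t + 1 => stepY m (q t) (δ t) (yG m q δ t)

variable (P)

/-- The law: probability of being alive, and weights of the sets of alive children. -/
noncomputable def law : ℕ → ℝ × (ℕ → ℝ)
  | 0 => (1, fun j => if j = 3 then 1 else 0)
  | t + 1 =>
    let a := (law t).1
    let g := (law t).2
    let r := ev 3 (fun j => pr P t (j + 1)) a g
    let s := ev 3 (fun j => pr P t (j + 1)) (a - bet' P * r) g
    let a' := ev 3 (fun j => 1 - pr P t (j + 1)) (a - s) g
    (a', stepY 3 (fun j => pr P t (j + 1)) (a - s - a') g)

/-- `P(Al t)` -/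
noncomputable def la (t : ℕ) : ℝ := (law P t).1

/-- weights of the sets of alive children -/
noncomputable def lg (t : ℕ) : ℕ → ℝ := (law P t).2

/-- `P(Rg t)` -/
noncomputable def lr (t : ℕ) : ℝ := ev 3 (fun j => pr P t (j + 1)) (la P t) (lg P t)

/-- `P(St t)` -/
noncomputable def ls (t : ℕ) : ℝ :=
  ev 3 (fun j => pr P t (j + 1)) (la P t - bet' P * lr P t) (lg P t)

/-- probability of being removed in round `t` without joining -/
noncomputable def ld (t : ℕ) : ℝ := la P t - ls P t - la P (t + 1)

/-- Weights of the sets of alive side children of a vertex with `m` side children and `n t` further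
alive neighbours. -/
noncomputable def yv (m : ℕ) (n : ℕ → ℕ) : ℕ → ℕ → ℝ :=
  yG m (fun t j => pr P t (j + n t)) (ld P)

/-- Weight of a path vertex which does not ring at its removal time `T` (its path neighbours being
removed at times `a` and `c`). -/
noncomputable def wN (a c T : ℕ) : ℝ :=
  if T < P.K then
    ev 2 (fun j => 1 - pr P T (j + nn a c T)) (la P T) (yv P 2 (nn a c) T) -
      ev 2 (fun j => 1 - pr P T (j + nn a c T)) (la P T - ls P T) (yv P 2 (nn a c) T)
  else ev 2 (fun _ => 1) (la P T) (yv P 2 (nn a c) T)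

/-- Weight of a ringing path vertex which is not beating some ringing path neighbour. -/
noncomputable def wA (a c T : ℕ) : ℝ :=
  ev 2 (fun j => pr P T (j + nn a c T)) (la P T) (yv P 2 (nn a c) T)

/-- Weight of a ringing path vertex which beats its ringing path neighbours. -/
noncomputable def wS (a c T : ℕ) : ℝ :=
  wA P a c T - ev 2 (fun j => pr P T (j + nn a c T)) (la P T - bet' P * lr P T)
    (yv P 2 (nn a c) T)

/-- The certificate for exponential decay with rate `μ`. -/
structure Cert (μ : ℝ) (GN G0 : ℕ → ℕ → ℝ) (G1 : ℕ → ℝ) : Prop where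
  posN : ∀ T a, 0 < GN T a
  pos0 : ∀ T a, 0 < G0 T a
  pos1 : ∀ T, 0 < G1 T
  iN : ∀ T ≤ P.K, ∀ a ≤ P.K,
    ∑ c ∈ Finset.range (P.K + 1), wN P a c T * (GN c T + if c < P.K then G0 c T else 0)
      ≤ μ * GN T a
  i0 : ∀ T < P.K, ∀ a ≤ P.K,
    ∑ c ∈ Finset.range (P.K + 1),
        wS P a c T * (GN c T + if c < P.K ∧ c ≠ T then G0 c T else 0)
      + bet P * wS P a T T * G1 T + bet P * wA P a T T * G0 T T
      + (1 / P.M) * wA P a T T * G1 T ≤ μ * G0 T a
  i1 : ∀ T < P.K,
    ∑ c ∈ Finset.range (P.K + 1),
        wA P T c T * (GN c T + if c < P.K ∧ c ≠ T then G0 c T else 0)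
      + bet P * wA P T T T * G1 T + bet P * wA P T T T * G0 T T
      + (1 / P.M) * wA P T T T * G1 T ≤ μ * G1 T

end Pool.Agent.Helper41.Girth4
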