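import Pool.Agent.Helper41.Girth4.XCert

/-!
# Positive formulas for the law and linearity of the weights
-/

namespace Pool.Agent.Helper41.Girth4

open Finset

variable (P : Par)

theorem ev_three (q : ℕ → ℝ) (x : ℝ) (y : ℕ → ℝ) :
    ev 3 q x y = y 0 * q 0 + 3 * (y 1 * q 1 * x) + 3 * (y 2 * q 2 * x ^ 2) + y 3 * q 3 * x ^ 3 := by
  have h1 : Nat.choose 3 1 = 3 := by decide
  have h2 : Nat.choose 3 2 = 3 := by decide
  simp only [ev, Finset.sum_range_succ, Finset.sum_range_zero, Nat.choose_zero_right,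
    Nat.choose_self, h1, h2]
  push_cast
  ring

theorem ev_two (q : ℕ → ℝ) (x : ℝ) (y : ℕ → ℝ) :
    ev 2 q x y = y 0 * q 0 + 2 * (y 1 * q 1 * x) + y 2 * q 2 * x ^ 2 := by
  have h1 : Nat.choose 2 1 = 2 := by decide
  simp only [ev, Finset.sum_range_succ, Finset.sum_range_zero, Nat.choose_zero_right,
    Nat.choose_self, h1]
  push_cast
  ring

theorem stepY_three (q : ℕ → ℝ) (d : ℝ) (y : ℕ → ℝ) :
    stepY 3 q d y 0 = y 0 * (1 - q 0) + 3 * (y 1 * (1 - q 1) * d) + 3 * (y 2 * (1 - q 2) * d ^ 2)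
      + y 3 * (1 - q 3) * d ^ 3 ∧
    stepY 3 q d y 1 = y 1 * (1 - q 1) + 2 * (y 2 * (1 - q 2) * d) + y 3 * (1 - q 3) * d ^ 2 ∧
    stepY 3 q d y 2 = y 2 * (1 - q 2) + y 3 * (1 - q 3) * d ∧
    stepY 3 q d y 3 = y 3 * (1 - q 3) := by
  have e0 : Finset.Icc 0 3 = {0, 1, 2, 3} := by decide
  have e1 : Finset.Icc 1 3 = {1, 2, 3} := by decide
  have e2 : Finset.Icc 2 3 = {2, 3} := by decide
  have e3 : Finset.Icc 3 3 = {3} := by decide
  have h31 : Nat.choose 3 1 = 3 := by decide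
  have h32 : Nat.choose 3 2 = 3 := by decide
  have h21 : Nat.choose 2 1 = 2 := by decide
  refine ⟨?_, ?_, ?_, ?_⟩
  · simp [stepY, e0, h31]; ring
  · simp [stepY, e1]; ring
  · simp [stepY, e2]
  · simp [stepY]

theorem stepY_two (q : ℕ → ℝ) (d : ℝ) (y : ℕ → ℝ) :
    stepY 2 q d y 0 = y 0 * (1 - q 0) + 2 * (y 1 * (1 - q 1) * d) + y 2 * (1 - q 2) * d ^ 2 ∧
    stepY 2 q d y 1 = y 1 * (1 - q 1) + y 2 * (1 - q 2) * d ∧
    stepY 2 q d y 2 = y 2 * (1 - q 2) := by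
  have e0 : Finset.Icc 0 2 = {0, 1, 2} := by decide
  have e1 : Finset.Icc 1 2 = {1, 2} := by decide
  have e2 : Finset.Icc 2 2 = {2} := by decide
  have h21 : Nat.choose 2 1 = 2 := by decide
  refine ⟨?_, ?_, ?_⟩
  · simp [stepY, e0]; ring
  · simp [stepY, e1]
  · simp [stepY, e2]

theorem ev_sum (m : ℕ) (q : ℕ → ℝ) (x : ℝ) (s : Finset ℕ) (η : ℕ → ℝ) (y : ℕ → ℕ → ℝ) :
    ev m q x (fun j => ∑ c ∈ s, η c * y c j) = ∑ c ∈ s, η c * ev m q x (y c) := by
  simp only [ev, Finset.mul_sum, Finset.sum_mul]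
  rw [Finset.sum_comm]
  refine Finset.sum_congr rfl fun c _ => Finset.sum_congr rfl fun j _ => ?_
  ring

theorem stepY_sum (m : ℕ) (q : ℕ → ℝ) (d : ℝ) (s : Finset ℕ) (η : ℕ → ℝ) (y : ℕ → ℕ → ℝ) (j : ℕ) :
    stepY m q d (fun j => ∑ c ∈ s, η c * y c j) j = ∑ c ∈ s, η c * stepY m q d (y c) j := by
  simp only [stepY, Finset.mul_sum, Finset.sum_mul]
  rw [Finset.sum_comm]
  refine Finset.sum_congr rfl fun c _ => Finset.sum_congr rfl fun j _ => ?_
  ring

/-- `r` in round `t` -/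
theorem lr_form (t : ℕ) : lr P t = lg P t 0 * pr P t 1 + 3 * (lg P t 1 * pr P t 2 * la P t)
    + 3 * (lg P t 2 * pr P t 3 * la P t ^ 2) + lg P t 3 * pr P t 4 * la P t ^ 3 := by
  rw [lr, ev_three]

/-- `s` in round `t` -/
theorem ls_form (t : ℕ) : ls P t = lg P t 0 * pr P t 1
    + 3 * (lg P t 1 * pr P t 2 * (la P t - bet' P * lr P t))
    + 3 * (lg P t 2 * pr P t 3 * (la P t - bet' P * lr P t) ^ 2)
    + lg P t 3 * pr P t 4 * (la P t - bet' P * lr P t) ^ 3 := by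
  rw [ls, ev_three]

theorem la_succ (t : ℕ) : la P (t + 1) = lg P t 0 * (1 - pr P t 1)
    + 3 * (lg P t 1 * (1 - pr P t 2) * (la P t - ls P t))
    + 3 * (lg P t 2 * (1 - pr P t 3) * (la P t - ls P t) ^ 2)
    + lg P t 3 * (1 - pr P t 4) * (la P t - ls P t) ^ 3 := by
  have : la P (t + 1) = ev 3 (fun j => 1 - pr P t (j + 1)) (la P t - ls P t) (lg P t) := rfl
  rw [this, ev_three]

theorem lg_succ (t : ℕ) :
    lg P (t + 1) 0 = lg P t 0 * (1 - pr P t 1) + 3 * (lg P t 1 * (1 - pr P t 2) * ld P t)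
      + 3 * (lg P t 2 * (1 - pr P t 3) * ld P t ^ 2) + lg P t 3 * (1 - pr P t 4) * ld P t ^ 3 ∧
    lg P (t + 1) 1 = lg P t 1 * (1 - pr P t 2) + 2 * (lg P t 2 * (1 - pr P t 3) * ld P t)
      + lg P t 3 * (1 - pr P t 4) * ld P t ^ 2 ∧
    lg P (t + 1) 2 = lg P t 2 * (1 - pr P t 3) + lg P t 3 * (1 - pr P t 4) * ld P t ∧
    lg P (t + 1) 3 = lg P t 3 * (1 - pr P t 4) := by
  have : lg P (t + 1) = stepY 3 (fun j => pr P t (j + 1)) (ld P t) (lg P t) := rfl
  rw [this]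
  exact stepY_three _ _ _

/-- the total weight identity -/
theorem la_id (t : ℕ) : la P t = lg P t 0 + 3 * (lg P t 1 * la P t) + 3 * (lg P t 2 * la P t ^ 2)
    + lg P t 3 * la P t ^ 3 := by
  induction t with
  | zero => simp [la, lg, law]
  | succ t _ =>
    obtain ⟨h0, h1, h2, h3⟩ := lg_succ P t
    rw [h0, h1, h2, h3]
    have hd : la P t - ls P t = ld P t + la P (t + 1) := by unfold ld; ring
    have ha := la_succ P t
    rw [hd] at ha
    linear_combination ha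

theorem bet_add : bet P + bet' P = 1 := by
  unfold bet bet'
  have hpos : (P.M : ℝ) ≠ 0 := by exact_mod_cast NeZero.ne P.M
  field_simp
  ring

/-- `u = a - β' r` -/
theorem u_form (t : ℕ) : la P t - bet' P * lr P t =
    (lg P t 0 * (1 - pr P t 1) + 3 * (lg P t 1 * (1 - pr P t 2) * la P t)
    + 3 * (lg P t 2 * (1 - pr P t 3) * la P t ^ 2) + lg P t 3 * (1 - pr P t 4) * la P t ^ 3)
    + bet P * lr P t := by
  have h1 := la_id P t
  have h2 := lr_form P t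
  have h3 := bet_add P
  have h4 : bet' P = 1 - bet P := by linarith
  rw [h4]
  linear_combination h1 - h2

/-- `v = a - s` -/
theorem v_form (t : ℕ) : la P t - ls P t =
    (3 * (lg P t 1 * pr P t 2 * (bet' P * lr P t))
    + 3 * (lg P t 2 * pr P t 3 * ((bet' P * lr P t) * (la P t + (la P t - bet' P * lr P t))))
    + lg P t 3 * pr P t 4 * ((bet' P * lr P t) * (la P t ^ 2
        + la P t * (la P t - bet' P * lr P t) + (la P t - bet' P * lr P t) ^ 2)))
    + (lg P t 0 * (1 - pr P t 1) + 3 * (lg P t 1 * (1 - pr P t 2) * la P t)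
    + 3 * (lg P t 2 * (1 - pr P t 3) * la P t ^ 2) + lg P t 3 * (1 - pr P t 4) * la P t ^ 3) := by
  have h1 := la_id P t
  have h2 := ls_form P t
  linear_combination h1 - h2

/-- `d = a - s - a'` -/
theorem d_form (t : ℕ) : ld P t =
    (3 * (lg P t 1 * pr P t 2 * (bet' P * lr P t))
    + 3 * (lg P t 2 * pr P t 3 * ((bet' P * lr P t) * (la P t + (la P t - bet' P * lr P t))))
    + lg P t 3 * pr P t 4 * ((bet' P * lr P t) * (la P t ^ 2
        + la P t * (la P t - bet' P * lr P t) + (la P t - bet' P * lr P t) ^ 2)))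
    + 3 * (lg P t 1 * (1 - pr P t 2) * ls P t)
    + 3 * (lg P t 2 * (1 - pr P t 3) * (ls P t * (la P t + (la P t - ls P t))))
    + lg P t 3 * (1 - pr P t 4) * (ls P t * (la P t ^ 2
        + la P t * (la P t - ls P t) + (la P t - ls P t) ^ 2)) := by
  have h1 := v_form P t
  have h2 := la_succ P t
  unfold ld
  linear_combination h1 - h2

/-! ### weights -/

/-- weight functional of a silent vertex, `T < K` -/
noncomputable def fN (n T : ℕ) (y : ℕ → ℝ) : ℝ :=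
  ev 2 (fun j => 1 - pr P T (j + n)) (la P T) y - ev 2 (fun j => 1 - pr P T (j + n))
    (la P T - ls P T) y

/-- weight functional of a ringing vertex -/
noncomputable def fA (n T : ℕ) (y : ℕ → ℝ) : ℝ := ev 2 (fun j => pr P T (j + n)) (la P T) y

/-- weight functional of a ringing, unsatisfied vertex -/
noncomputable def fS (n T : ℕ) (y : ℕ → ℝ) : ℝ :=
  fA P n T y - ev 2 (fun j => pr P T (j + n)) (la P T - bet' P * lr P T) y

/-- weight functional of a surviving vertex -/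
noncomputable def fL (T : ℕ) (y : ℕ → ℝ) : ℝ := ev 2 (fun _ => 1) (la P T) y

theorem fN_form (n T : ℕ) (y : ℕ → ℝ) : fN P n T y = 2 * (y 1 * (1 - pr P T (1 + n)) * ls P T)
    + y 2 * (1 - pr P T (2 + n)) * (ls P T * (la P T + (la P T - ls P T))) := by
  rw [fN, ev_two, ev_two]; ring

theorem fA_form (n T : ℕ) (y : ℕ → ℝ) : fA P n T y = y 0 * pr P T (0 + n)
    + 2 * (y 1 * pr P T (1 + n) * la P T) + y 2 * pr P T (2 + n) * la P T ^ 2 := by
  rw [fA, ev_two]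

theorem fS_form (n T : ℕ) (y : ℕ → ℝ) : fS P n T y =
    2 * (y 1 * pr P T (1 + n) * (bet' P * lr P T))
    + y 2 * pr P T (2 + n) * ((bet' P * lr P T) * (la P T + (la P T - bet' P * lr P T))) := by
  rw [fS, fA, ev_two, ev_two]; ring

theorem fL_form (T : ℕ) (y : ℕ → ℝ) : fL P T y = y 0 + 2 * (y 1 * la P T) + y 2 * la P T ^ 2 := by
  rw [fL, ev_two]; ring

theorem fN_sum (n T : ℕ) (s : Finset ℕ) (η : ℕ → ℝ) (y : ℕ → ℕ → ℝ) :
    fN P n T (fun j => ∑ c ∈ s, η c * y c j) = ∑ c ∈ s, η c * fN P n T (y c) := by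
  simp only [fN, ev_sum, mul_sub, Finset.sum_sub_distrib]

theorem fA_sum (n T : ℕ) (s : Finset ℕ) (η : ℕ → ℝ) (y : ℕ → ℕ → ℝ) :
    fA P n T (fun j => ∑ c ∈ s, η c * y c j) = ∑ c ∈ s, η c * fA P n T (y c) := by
  simp only [fA, ev_sum]

theorem fS_sum (n T : ℕ) (s : Finset ℕ) (η : ℕ → ℝ) (y : ℕ → ℕ → ℝ) :
    fS P n T (fun j => ∑ c ∈ s, η c * y c j) = ∑ c ∈ s, η c * fS P n T (y c) := by
  simp only [fS, fA_sum, ev_sum, mul_sub, Finset.sum_sub_distrib]

theorem fL_sum (T : ℕ) (s : Finset ℕ) (η : ℕ → ℝ) (y : ℕ → ℕ → ℝ) :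
    fL P T (fun j => ∑ c ∈ s, η c * y c j) = ∑ c ∈ s, η c * fL P T (y c) := by
  simp only [fL, ev_sum]

theorem wN_eq {a c T : ℕ} (hT : T < P.K) :
    wN P a c T = fN P (nn a c T) T (yv P 2 (nn a c) T) := by
  simp only [wN, hT, if_true, fN]

theorem wN_eq' {a c T : ℕ} (hT : ¬ T < P.K) : wN P a c T = fL P T (yv P 2 (nn a c) T) := by
  simp only [wN, hT, if_false, fL]

theorem wA_eq {a c T : ℕ} : wA P a c T = fA P (nn a c T) T (yv P 2 (nn a c) T) := rfl

theorem wS_eq {a c T : ℕ} : wS P a c T = fS P (nn a c T) T (yv P 2 (nn a c) T) := rfl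

/-- `yG` up to time `T` depends only on the data before `T`. -/
theorem yG_congr {m : ℕ} {q q' : ℕ → ℕ → ℝ} {δ : ℕ → ℝ} {T : ℕ} (h : ∀ t < T, q t = q' t) :
    yG m q δ T = yG m q' δ T := by
  induction T with
  | zero => rfl
  | succ T ih =>
    simp only [yG]
    rw [h T (Nat.lt_succ_self T), ih fun t ht => h t (Nat.lt_succ_of_lt ht)]

theorem yv_congr {m : ℕ} {n n' : ℕ → ℕ} {T : ℕ} (h : ∀ t < T, n t = n' t) :
    yv P m n T = yv P m n' T := by
  unfold yv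
  apply yG_congr
  intro t ht
  rw [h t ht]

theorem yv_succ (m : ℕ) (n : ℕ → ℕ) (t : ℕ) :
    yv P m n (t + 1) = stepY m (fun j => pr P t (j + n t)) (ld P t) (yv P m n t) := rfl

/-- left part: `YY a t` has the right neighbour alive all the time -/
noncomputable def YY (a t : ℕ) : ℕ → ℝ := yv P 2 (nn a P.K) t

/-- weighted sum over the removal times `c < t` of the right neighbour -/
noncomputable def ZZ (η : ℕ → ℝ) (a t : ℕ) : ℕ → ℝ :=
  fun j => ∑ c ∈ Finset.range t, η c * yv P 2 (nn a c) t j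

/-- number of alive left neighbours -/
def nl (a t : ℕ) : ℕ := if t ≤ a then 1 else 0

theorem nn_of_le {a c t : ℕ} (h : t ≤ c) : nn a c t = nl a t + 1 := by
  simp [nn, nl, h]

theorem nn_of_gt {a c t : ℕ} (h : c < t) : nn a c t = nl a t := by
  simp [nn, nl, not_le.2 h]

theorem YY_succ {a t : ℕ} (ht : t ≤ P.K) :
    YY P a (t + 1) = stepY 2 (fun j => pr P t (j + (nl a t + 1))) (ld P t) (YY P a t) := by
  unfold YY
  rw [yv_succ, nn_of_le ht]

theorem yv_eq_YY {a c T : ℕ} (hT : T ≤ P.K) (h : ∀ t < T, t ≤ c) :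
    yv P 2 (nn a c) T = YY P a T := by
  unfold YY
  apply yv_congr
  intro t ht
  rw [nn_of_le (h t ht), nn_of_le (le_trans ht.le hT)]

theorem ZZ_succ (η : ℕ → ℝ) {a t : ℕ} (ht : t < P.K) (j : ℕ) :
    ZZ P η a (t + 1) j = stepY 2 (fun j => pr P t (j + nl a t)) (ld P t) (ZZ P η a t) j
      + η t * YY P a (t + 1) j := by
  unfold ZZ
  rw [stepY_sum, Finset.sum_range_succ]
  congr 1
  · apply Finset.sum_congr rfl
    intro c hc
    rw [yv_succ, nn_of_gt (Finset.mem_range.1 hc)]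
  · rw [yv_eq_YY P (Nat.succ_le_of_lt ht) (fun s hs => Nat.le_of_lt_succ hs)]

theorem sum_wN {η : ℕ → ℝ} {a T : ℕ} (hT : T < P.K) :
    ∑ c ∈ Finset.range T, wN P a c T * η c = fN P (nl a T) T (ZZ P η a T) := by
  unfold ZZ
  rw [fN_sum]
  apply Finset.sum_congr rfl
  intro c hc
  rw [wN_eq P hT, nn_of_gt (Finset.mem_range.1 hc), mul_comm]

theorem sum_wN' {η : ℕ → ℝ} {a T : ℕ} (hT : ¬ T < P.K) :
    ∑ c ∈ Finset.range T, wN P a c T * η c = fL P T (ZZ P η a T) := by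
  unfold ZZ
  rw [fL_sum]
  apply Finset.sum_congr rfl
  intro c hc
  rw [wN_eq' P hT, mul_comm]

theorem sum_wA {η : ℕ → ℝ} {a T : ℕ} :
    ∑ c ∈ Finset.range T, wA P a c T * η c = fA P (nl a T) T (ZZ P η a T) := by
  unfold ZZ
  rw [fA_sum]
  apply Finset.sum_congr rfl
  intro c hc
  rw [wA_eq, nn_of_gt (Finset.mem_range.1 hc), mul_comm]

theorem sum_wS {η : ℕ → ℝ} {a T : ℕ} :
    ∑ c ∈ Finset.range T, wS P a c T * η c = fS P (nl a T) T (ZZ P η a T) := by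
  unfold ZZ
  rw [fS_sum]
  apply Finset.sum_congr rfl
  intro c hc
  rw [wS_eq, nn_of_gt (Finset.mem_range.1 hc), mul_comm]

variable (x : XC)

theorem oN_eq {T a : ℕ} (hT : T < P.K) : oN P x T a =
    fN P (nl a T) T (ZZ P (fun c => x.HN c + x.H0 c) a T) +
      fN P (nl a T + 1) T (YY P a T) * (x.HN T + x.H0 T + x.O3 T) := by
  unfold oN
  rw [← sum_wN P hT, wN_eq P hT, nn_of_le hT.le, if_pos hT]
  rfl

theorem oN_eq' (a : ℕ) : oN P x P.K a =
    fL P P.K (ZZ P (fun c => x.HN c + x.H0 c) a P.K) +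
      fL P P.K (YY P a P.K) * (x.HN P.K + x.O3 P.K) := by
  unfold oN
  rw [← sum_wN' P (lt_irrefl _), wN_eq' P (lt_irrefl _), if_neg (lt_irrefl _), add_zero]
  rfl

theorem o0_eq {T a : ℕ} (hT : T ≤ P.K) : o0 P x T a =
    fS P (nl a T) T (ZZ P (fun c => x.HN c + x.H0 c) a T) +
      fS P (nl a T + 1) T (YY P a T) * (x.HN T + x.O3 T)
      + bet P * fS P (nl a T + 1) T (YY P a T) * x.H1 T
      + bet P * fA P (nl a T + 1) T (YY P a T) * x.H0 T
      + (1 / P.M) * fA P (nl a T + 1) T (YY P a T) * x.H1 T := by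
  unfold o0
  rw [← sum_wS P, wS_eq, wA_eq, nn_of_le hT]
  rfl

theorem o1_eq {T : ℕ} (hT : T ≤ P.K) : o1 P x T =
    fA P (nl T T) T (ZZ P (fun c => x.HN c + x.H0 c) T T) +
      fA P (nl T T + 1) T (YY P T T) * (x.HN T + x.O3 T)
      + bet P * fA P (nl T T + 1) T (YY P T T) * x.H1 T
      + bet P * fA P (nl T T + 1) T (YY P T T) * x.H0 T
      + (1 / P.M) * fA P (nl T T + 1) T (YY P T T) * x.H1 T := by
  unfold o1
  rw [← sum_wA P, wA_eq, nn_of_le hT]
  rfl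

/-- up to time `a` the left neighbour is alive -/
theorem YY_self {a t : ℕ} (h : t ≤ a) : YY P a t = YY P t t := by
  unfold YY
  apply yv_congr
  intro s hs
  simp [nn, show s ≤ a by omega, hs.le]

theorem ZZ_self (η : ℕ → ℝ) {a t : ℕ} (h : t ≤ a) : ZZ P η a t = ZZ P η t t := by
  unfold ZZ
  funext j
  apply Finset.sum_congr rfl
  intro c _
  rw [yv_congr P (n := nn a c) (n' := nn t c)]
  intro s hs
  simp [nn, show s ≤ a by omega, hs.le]

end Pool.Agent.Helper41.Girth4
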