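import Mathlib

/-!
# The numerical certificate for MP_246f82_co: integer algorithm

All real numbers are scaled by `S = 10^60` and rounded upwards. `data` contains, for every round
`t < 80`, the ringing threshold `q_t` (out of `10^6`) of vertices with two alive neighbours (in round
`0`: of all vertices) and the compact certificate. `check` evaluates the law of the process and the
transfer inequalities; it is evaluated by the kernel.
-/

namespace Pool.Agent.Helper41.Girth4.Num

/-- scale -/
def S : ℕ := 1000000000000000000000000000000000000000000000000000000000000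

/-- rounded product -/
def mU (x y : ℕ) : ℕ := x * y / S + 1

/-- beta (scaled) -/
def beS : ℕ := (9765625 - 1) * (S / (2 * 9765625))
/-- 1 - beta (scaled) -/
def be1S : ℕ := (9765625 + 1) * (S / (2 * 9765625))
/-- 1 / M (scaled) -/
def tauS : ℕ := S / 9765625

/-- schedule and certificate: (q_t, HN t, H0 t, H1 t, O3 t) -/
def data : List (ℕ × ℕ × ℕ × ℕ × ℕ) := [
  (27717, 270616807471, 4397907920, 153289087763, 1485573980298),
  (662668, 106940301407, 436861731, 96058925567, 1417725996708),
  (560225, 107481838580, 456682382, 96472044792, 1375159398363),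
  (380841, 98434260465, 386742059, 88977822078, 1346212640616),
  (285558, 98610923822, 390420364, 89820614475, 1319432706360),
  (132166, 63521615798, 154767599, 59442924161, 1296373341210),
  (136737, 73138423275, 219380208, 68105907116, 1271073716018),
  (114950, 74377199651, 224272931, 70310950619, 1242587506817),
  (111829, 83961628648, 292134834, 80176033103, 1208394191884),
  (87805, 80769221351, 263465514, 79003496328, 1171283917697),
  (73392, 78889449851, 252665850, 78605548100, 1132457370488),
  (61433, 76538396922, 237542976, 77819667128, 1092508801899),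
  (52660, 74773633097, 227272278, 77518452488, 1052164698451),
  (52942, 80958619969, 279885654, 84958748450, 1007208209259),
  (37640, 72109099411, 200311182, 78710481798, 963998976481),
  (31848, 66951047011, 175307349, 74368092681, 923481733411),
  (27168, 62897768654, 154457248, 71189645841, 885056945733),
  (23957, 60110729001, 141742126, 69187096455, 848229713822),
  (21504, 58169253997, 133096227, 68053258874, 812766616994),
  (20808, 58539136468, 139445917, 69320775606, 776501826072),
  (13816, 50815208709, 86029361, 62650427274, 744997356297),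
  (18207, 54833055860, 130317959, 66371809895, 711813889972),
  (11540, 48639970453, 77638047, 61786610234, 682092206930),
  (14957, 51612708373, 113000236, 64519756363, 651217211506),
  (9936, 46881155878, 71797149, 61188361405, 622960166432),
  (11434, 47412374130, 87891831, 61500229622, 595200903193),
  (9598, 45823490795, 74696847, 60809834816, 568464027056),
  (9094, 44879975920, 72510830, 60215953028, 542529979217),
  (7707, 42860245652, 61207963, 58586617087, 518463056208),
  (8678, 43716622960, 73245927, 59670012744, 493761323014),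
  (5225, 39495274399, 41329484, 56116600693, 472928892428),
  (10216, 44971273767, 95738721, 61381315176, 448197104174),
  (2359, 37008199265, 18772385, 55291114990, 428703915294),
  (8247, 41006358789, 75511665, 57517357883, 407875147951),
  (4767, 38892374122, 42643018, 57280215370, 388080196462),
  (5260, 38485569653, 48083769, 56680694434, 368880813173),
  (4270, 37005610512, 38652487, 55507282938, 350811498552),
  (4219, 36125495991, 38359282, 54516840008, 334077247649),
  (5049, 36993513858, 48338021, 55654807004, 316887557484),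
  (3296, 35292789286, 30865988, 54680507381, 301213167241),
  (4535, 36043997865, 44547642, 55293436014, 285414529558),
  (3301, 35039570741, 32278929, 55033130541, 270220724973),
  (2959, 33940355195, 28699915, 53850292456, 256294971093),
  (3714, 34318910708, 37294041, 54229641404, 242464367045),
  (2953, 33714685605, 29757862, 54203836378, 229385676926),
  (3317, 33866749476, 34327593, 54538186905, 216068482464),
  (1734, 31961559424, 17263366, 52931568077, 204670997534),
  (3832, 33315520871, 40668588, 53892549630, 192318369169),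
  (1278, 31184259389, 12904382, 52634205327, 182122948302),
  (4126, 33164675622, 45300616, 54117399232, 170530289088),
  (961, 30906023214, 9975997, 53070656113, 160788534950),
  (3209, 31840057517, 35031809, 53243419116, 150852448642),
  (2117, 31367813333, 23130761, 53636093123, 141125443141),
  (1604, 30402629018, 17261860, 52640195958, 132771027728),
  (3332, 31591296499, 37954377, 53790448743, 123509233314),
  (939, 29959639251, 10272471, 53015402193, 115724769387),
  (2866, 30650016845, 32660222, 53157104000, 107694537453),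
  (1656, 29975235079, 18699923, 53167599522, 100413952593),
  (2431, 30160796087, 28056734, 53296161156, 93256710810),
  (1994, 29866037282, 23097034, 53416370795, 86634897737),
  (2469, 30013170843, 29160410, 53732094220, 80074758272),
  (1924, 29590295233, 22688128, 53671108567, 74230457478),
  (2897, 29993690735, 35135308, 54191771901, 68496145146),
  (2687, 30065205003, 33078332, 54881755636, 62906088756),
  (2454, 29819323220, 30334988, 54973481682, 57815679098),
  (3091, 29938415214, 38878608, 55286689266, 53043834857),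
  (3473, 30126034272, 44519633, 55939698166, 48464317963),
  (3593, 30138492084, 46640036, 56436391288, 44155680246),
  (3938, 30092500984, 51672297, 56751652073, 40264424384),
  (4920, 30280822270, 65817990, 57337208570, 36712098368),
  (6050, 30597016901, 82867818, 58282971676, 33236538725),
  (6484, 30532004404, 89681088, 58862573022, 30397624893),
  (9609, 31080765897, 137528910, 60086331704, 27641200513),
  (11643, 31302889671, 170266384, 61415988179, 25302271084),
  (16596, 31664976961, 250366769, 62986429978, 23249903739),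
  (24247, 31882447305, 377410226, 64947172381, 21665722969),
  (40414, 31963968095, 656233428, 67857257164, 21068022446),
  (84813, 31653658486, 1495710414, 74326014444, 20113783479),
  (202174, 26080109381, 3723115233, 82251143944, 12290289675),
  (455619, 9822068147, 5339442236, 69712055086, 19265988019)]

/-- `HN K` -/
def hnK : ℕ := 19265988019

/-- the data of one round -/
structure Rec where
  p0 : ℕ
  p1 : ℕ
  p2 : ℕ
  p3 : ℕ
  p4 : ℕ
  a : ℕ
  a2 : ℕ
  s : ℕ
  sav : ℕ
  ro : ℕ
  rau : ℕ
  d : ℕ
  d2 : ℕ
  hn : ℕ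
  h0 : ℕ
  h1 : ℕ
  o3 : ℕ

/-- state of the law -/
structure LSt where
  g0 : ℕ
  g1 : ℕ
  g2 : ℕ
  g3 : ℕ
  a : ℕ

/-- force evaluation -/
def force {α : Sort*} (x : ℕ) (f : ℕ → α) : α :=
  match x with
  | 0 => f 0
  | n + 1 => f (n + 1)

theorem force_eq {α : Sort*} (x : ℕ) (f : ℕ → α) : force x f = f x := by cases x <;> rfl

theorem force_elim {α : Sort*} (C : α → Prop) (x : ℕ) (f : ℕ → α) (h : ∀ y, y = x → C (f y)) :
    C (force x f) := by rw [force_eq]; exact h x rfl

/-- one law step -/
def lawStep {α : Type} (st : LSt) (p1 p2 p3 p4 : ℕ) (k : LSt → (a2 s sav ro rau d d2 : ℕ) → α) : α :=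
  let a := st.a
  force (mU a a) fun a2 =>
  force (mU a2 a) fun a3 =>
  force (mU st.g0 p1) fun x0 =>
  force (mU st.g1 p2) fun x1 =>
  force (mU st.g2 p3) fun x2 =>
  force (mU st.g3 p4) fun x3 =>
  force (mU st.g0 (S - p1)) fun n0 =>
  force (mU st.g1 (S - p2)) fun n1 =>
  force (mU st.g2 (S - p3)) fun n2 =>
  force (mU st.g3 (S - p4)) fun n3 =>
  force (x0 + 3 * mU x1 a + 3 * mU x2 a2 + mU x3 a3) fun r =>
  force (mU be1S r) fun ro =>
  force (n0 + 3 * mU n1 a + 3 * mU n2 a2 + mU n3 a3) fun an =>
  force (an + mU beS r) fun u =>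
  force (mU u u) fun u2 =>
  force (mU u2 u) fun u3 =>
  force (x0 + 3 * mU x1 u + 3 * mU x2 u2 + mU x3 u3) fun s =>
  force (mU ro (a + u)) fun rau =>
  force (3 * mU x1 ro + 3 * mU x2 rau + mU x3 (mU ro (a2 + mU a u + u2))) fun xd =>
  force (xd + an) fun v =>
  force (mU v v) fun v2 =>
  force (mU v2 v) fun v3 =>
  force (n0 + 3 * mU n1 v + 3 * mU n2 v2 + mU n3 v3) fun a' =>
  force (mU s (a + v)) fun sav =>
  force (xd + 3 * mU n1 s + 3 * mU n2 sav + mU n3 (mU s (a2 + mU a v + v2))) fun d =>
  force (mU d d) fun d2 =>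
  force (mU d2 d) fun d3 =>
  force (n0 + 3 * mU n1 d + 3 * mU n2 d2 + mU n3 d3) fun g0' =>
  force (n1 + 2 * mU n2 d + mU n3 d2) fun g1' =>
  force (n2 + mU n3 d) fun g2' =>
  k ⟨g0', g1', g2', n3, a'⟩ a2 s sav ro rau d d2

/-- the table, and the final a -/
def table : Bool → LSt → List (ℕ × ℕ × ℕ × ℕ × ℕ) → List Rec × ℕ
  | _, st, [] => ([], st.a)
  | b, st, (q, hn, h0, h1, o3) :: l =>
    force (q * 1000000000000000000000000000000000000000000000000000000) fun qq =>
    force (bif b then qq else S) fun e1 =>
    force (bif b then qq else 0) fun e3 =>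
    lawStep st e1 qq e3 e3 fun st' a2 s sav ro rau d d2 =>
      let r := table false st' l
      (⟨e1, e1, qq, e3, e3, st.a, a2, s, sav, ro, rau, d, d2, hn, h0, h1, o3⟩ :: r.1, r.2)

/-- vectors -/
structure Vec where
  y0 : ℕ
  y1 : ℕ
  y2 : ℕ

/-- one step for a vector -/
def stepV {α : Type} (c0 c1 c2 : ℕ) (d d2 : ℕ) (y : Vec) (k : Vec → α) : α :=
  force (mU y.y0 (S - c0)) fun z0 =>
  force (mU y.y1 (S - c1)) fun z1 =>
  force (mU y.y2 (S - c2)) fun z2 =>
  force (z0 + 2 * mU z1 d + mU z2 d2) fun w0 =>
  force (z1 + mU z2 d) fun w1 =>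
  k ⟨w0, w1, z2⟩

/-- weight of a silent vertex -/
def LN (c1 c2 : ℕ) (s sav : ℕ) (y : Vec) : ℕ :=
  2 * mU (mU y.y1 (S - c1)) s + mU (mU y.y2 (S - c2)) sav

/-- weight of a ringing vertex -/
def LA (c0 c1 c2 : ℕ) (a a2 : ℕ) (y : Vec) : ℕ :=
  mU y.y0 c0 + 2 * mU (mU y.y1 c1) a + mU (mU y.y2 c2) a2

/-- weight of a ringing, unsatisfied vertex -/
def LS (c1 c2 : ℕ) (ro rau : ℕ) (y : Vec) : ℕ :=
  2 * mU (mU y.y1 c1) ro + mU (mU y.y2 c2) rau

/-- weight of a surviving vertex -/
def LL (a a2 : ℕ) (y : Vec) : ℕ := y.y0 + 2 * mU y.y1 a + mU y.y2 a2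

/-- out for n = n_left + 1 on y, n_left on Z -/
def oNn (nl : Bool) (r : Rec) (y Z : Vec) : ℕ :=
  bif nl then LN r.p3 r.p4 r.s r.sav y * (r.hn + r.h0 + r.o3) + LN r.p2 r.p3 r.s r.sav Z
  else LN r.p2 r.p3 r.s r.sav y * (r.hn + r.h0 + r.o3) + LN r.p1 r.p2 r.s r.sav Z

/-- `o0` -/
def o0n (nl : Bool) (r : Rec) (y Z : Vec) : ℕ :=
  force (bif nl then LS r.p3 r.p4 r.ro r.rau y else LS r.p2 r.p3 r.ro r.rau y) fun ls =>
  force (bif nl then LA r.p2 r.p3 r.p4 r.a r.a2 y else LA r.p1 r.p2 r.p3 r.a r.a2 y) fun la =>
  ls * (r.hn + r.o3) + (bif nl then LS r.p2 r.p3 r.ro r.rau Z else LS r.p1 r.p2 r.ro r.rau Z)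
    + mU beS ls * r.h1 + mU beS la * r.h0 + mU tauS la * r.h1

/-- `o1` -/
def o1n (r : Rec) (y Z : Vec) : ℕ :=
  force (LA r.p2 r.p3 r.p4 r.a r.a2 y) fun la =>
  la * (r.hn + r.o3) + LA r.p1 r.p2 r.p3 r.a r.a2 Z
    + mU beS la * r.h1 + mU beS la * r.h0 + mU tauS la * r.h1

/-- update of (y, Z) -/
def upd {α : Type} (nl : Bool) (r : Rec) (y Z : Vec) (k : Vec → Vec → α) : α :=
  bif nl then
    stepV r.p2 r.p3 r.p4 r.d r.d2 y fun y' =>
    stepV r.p1 r.p2 r.p3 r.d r.d2 Z fun Z' =>
    force (Z'.y0 + (r.hn + r.h0) * y'.y0) fun z0 =>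
    force (Z'.y1 + (r.hn + r.h0) * y'.y1) fun z1 =>
    force (Z'.y2 + (r.hn + r.h0) * y'.y2) fun z2 => k y' ⟨z0, z1, z2⟩
  else
    stepV r.p1 r.p2 r.p3 r.d r.d2 y fun y' =>
    stepV r.p0 r.p1 r.p2 r.d r.d2 Z fun Z' =>
    force (Z'.y0 + (r.hn + r.h0) * y'.y0) fun z0 =>
    force (Z'.y1 + (r.hn + r.h0) * y'.y1) fun z1 =>
    force (Z'.y2 + (r.hn + r.h0) * y'.y2) fun z2 => k y' ⟨z0, z1, z2⟩

/-- left side of `i3` -/
def inner (aK aK2 hK : ℕ) : ℕ → List Rec → Vec → Vec → ℕ
  | acc, [], y, Z => acc + (LL aK aK2 y * hK + LL aK aK2 Z)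
  | acc, r :: l, y, Z =>
    force (acc + oNn false r y Z + o0n false r y Z) fun acc' =>
    upd false r y Z fun y' Z' => inner aK aK2 hK acc' l y' Z'

/-- the test `o ≤ μ₀ h` -/
def le (o h : ℕ) : Bool := Nat.ble (o * 10000) (3319 * h * S)

/-- all tests -/
def outer (aK aK2 hK : ℕ) : List Rec → Vec → Vec → Bool
  | [], y, Z => le (LL aK aK2 y * hK + LL aK aK2 Z) hK
  | r :: l, y, Z =>
    le (oNn true r y Z) r.hn && le (o0n true r y Z) r.h0 && le (o1n r y Z) r.h1 &&
    upd true r y Z fun y' Z' => le (inner aK aK2 hK 0 l y' Z') r.o3 && outer aK aK2 hK l y' Z'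

/-- the whole test -/
def check : Bool :=
  let r := table true ⟨0, 0, 0, S, S⟩ data
  force r.2 fun aK => force (mU aK aK) fun aK2 =>
  outer aK aK2 hnK r.1 ⟨0, 0, S⟩ ⟨0, 0, 0⟩

theorem check_true : check = true := by decide +kernel

end Pool.Agent.Helper41.Girth4.Num
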