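import Pool.Agent.Helper41.Girth4.NumSound

/-!
# Soundness of the numerical certificate, second part
-/

namespace Pool.Agent.Helper41.Girth4.Num

open Finset

theorem Ex_entries {b : Bool} {t q e1 e3 : ℕ} (hb : b = decide (t = 0)) (hq : (ent t).1 = q)
    (he1 : e1 = bif b then q * 1000000000000000000000000000000000000000000000000000000 else S)
    (he3 : e3 = bif b then q * 1000000000000000000000000000000000000000000000000000000 else 0) :
    (∀ d, d ≤ 1 → Ex (pr PP t d) e1) ∧
    Ex (pr PP t 2) (q * 1000000000000000000000000000000000000000000000000000000) ∧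
    (∀ d, 3 ≤ d → Ex (pr PP t d) e3) := by
  have hS : (S : ℕ) = 1000000 * 1000000000000000000000000000000000000000000000000000000 := by
    norm_num [S]
  rcases Nat.eq_zero_or_pos t with h | h
  · subst h
    have hb' : b = true := by rw [hb]; rfl
    subst hb'
    rw [cond_true] at he1 he3
    subst he1 he3
    have h5 : ∀ d, Ex (pr PP 0 d) (q * 1000000000000000000000000000000000000000000000000000000) := by
      intro d
      have : thrF 0 d = q := by rw [thrF, if_pos rfl, hq]
      exact Ex_pr this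
    exact ⟨fun d _ => h5 d, h5 2, fun d _ => h5 d⟩
  · have hb' : b = false := by rw [hb]; exact decide_eq_false h.ne'
    subst hb'
    rw [cond_false] at he1 he3
    subst he1 he3
    refine ⟨?_, ?_, ?_⟩
    · intro d hd
      have : thrF t d = 1000000 := by rw [thrF, if_neg h.ne', if_pos hd]
      have h5 := Ex_pr this
      rw [← hS] at h5
      exact h5
    · have : thrF t 2 = q := by rw [thrF, if_neg h.ne', if_neg (by norm_num), if_pos rfl, hq]
      exact Ex_pr this
    · intro d hd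
      have : thrF t d = 0 := by rw [thrF, if_neg h.ne', if_neg (by omega), if_neg (by omega)]
      have h5 := Ex_pr this
      rw [Nat.zero_mul] at h5
      exact h5
/-- a list of records starting at time `t` -/
def GoodT : ℕ → List Rec → Prop
  | t, [] => t = 80
  | t, r :: l => t < 80 ∧ GoodR t r ∧ GoodT (t + 1) l

/-- specification of the table -/
def TabOK (t : ℕ) (z : List Rec × ℕ) : Prop := GoodT t z.1 ∧ Up (la PP 80) z.2

theorem table_sound (b : Bool) (t : ℕ) (hb : b = decide (t = 0)) (l : List (ℕ × ℕ × ℕ × ℕ × ℕ))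
    (st : LSt) (hst : GoodL t st) (hl : t + l.length = 80) (hl' : ∀ i, i < l.length →
      l.getD i (0, 0, 0, 0, 0) = ent (t + i)) :
    TabOK t (table b st l) := by
  induction l generalizing b t st with
  | nil =>
    simp only [List.length_nil, add_zero] at hl
    subst hl
    exact ⟨rfl, hst.2.2.2.2⟩
  | cons x l ih =>
    obtain ⟨q, hn, h0, h1, o3⟩ := x
    simp only [List.length_cons] at hl hl'
    have hx : ent t = (q, hn, h0, h1, o3) := by
      have := hl' 0 (Nat.succ_pos _)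
      simpa using this.symm
    unfold table
    refine force_elim (TabOK t) _ _ fun qq e => ?_
    subst e
    refine force_elim (TabOK t) _ _ fun e1 he1 => ?_
    refine force_elim (TabOK t) _ _ fun e3 he3 => ?_
    have hq : (ent t).1 = q := by rw [hx]
    obtain ⟨P01, P2, P34⟩ := Ex_entries hb hq he1 he3
    refine lawStep_sound (TabOK t) hst
      (P01 1 (le_refl _)) P2 (P34 3 (le_refl _)) (P34 4 (by norm_num)) _ ?_
    intro st' a2 s sav ro rau d d2 G' A2 SS SAV RO RAU D D2
    have IH := ih false (t + 1) (by simp) st' G' (by omega) (by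
      intro i hi
      have := hl' (i + 1) (by omega)
      simp only [List.getD_cons_succ] at this
      rw [this]
      congr 1
      omega)
    refine ⟨⟨by omega, ?_, IH.1⟩, IH.2⟩
    exact
      { p0 := P01 0 (by norm_num)
        p1 := P01 1 (le_refl _)
        p2 := P2
        p3 := P34 3 (le_refl _)
        p4 := P34 4 (by norm_num)
        a := hst.2.2.2.2
        a2 := A2
        s := SS
        sav := SAV
        ro := RO
        rau := RAU
        d := D
        d2 := D2
        hn := by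
          have : t ≠ 80 := by omega
          simp [XX, this, hx]
        h0 := by simp [XX, hx]
        h1 := by simp [XX, hx]
        o3 := by simp [XX, hx] }

/-- facts on the real sequences extracted from the table -/
theorem GoodT.get {t : ℕ} {l : List Rec} (h : GoodT t l) {s : ℕ} (hs : t ≤ s) (hs' : s < 80) :
    ∃ r, GoodR s r := by
  induction l generalizing t with
  | nil => simp only [GoodT] at h; omega
  | cons r l ih =>
    obtain ⟨_, h2, h3⟩ := h
    rcases Nat.eq_or_lt_of_le hs with rfl | hlt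
    · exact ⟨r, h2⟩
    · exact ih h3 hlt

/-! ### vectors -/

/-- vector bounds -/
def UpV (y : ℕ → ℝ) (b : Vec) : Prop := Up (y 0) b.y0 ∧ Up (y 1) b.y1 ∧ Up (y 2) b.y2

theorem stepV_sound {α : Type} (C : α → Prop) {q : ℕ → ℝ} {δ : ℝ} {y : ℕ → ℝ} {c0 c1 c2 d d2 : ℕ}
    {b : Vec} (h0 : Ex (q 0) c0) (h1 : Ex (q 1) c1) (h2 : Ex (q 2) c2) (hd : Up δ d)
    (hd2 : Up (δ ^ 2) d2) (hy : UpV y b) (k : Vec → α)
    (hk : ∀ b', UpV (stepY 2 q δ y) b' → C (k b')) : C (stepV c0 c1 c2 d d2 b k) := by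
  obtain ⟨Y0, Y1, Y2⟩ := hy
  obtain ⟨s0, s1, s2⟩ := stepY_two q δ y
  unfold stepV
  refine force_elim C _ _ fun z0 e => ?_
  have Z0 : Up (y 0 * (1 - q 0)) z0 := by rw [e]; exact Y0.mul h0.compl.up
  clear e
  refine force_elim C _ _ fun z1 e => ?_
  have Z1 : Up (y 1 * (1 - q 1)) z1 := by rw [e]; exact Y1.mul h1.compl.up
  clear e
  refine force_elim C _ _ fun z2 e => ?_
  have Z2 : Up (y 2 * (1 - q 2)) z2 := by rw [e]; exact Y2.mul h2.compl.up
  clear e
  refine force_elim C _ _ fun w0 e => ?_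
  have W0 : Up (stepY 2 q δ y 0) w0 := by
    rw [e]; exact ((Z0.add (Z1.mul hd).two).add (Z2.mul hd2)).congr s0
  clear e
  refine force_elim C _ _ fun w1 e => ?_
  have W1 : Up (stepY 2 q δ y 1) w1 := by
    rw [e]; exact (Z1.add (Z2.mul hd)).congr s1
  clear e
  exact hk _ ⟨W0, W1, Z2.congr s2⟩

theorem LN_sound {n T : ℕ} {y : ℕ → ℝ} {b : Vec} {c1 c2 s sav : ℕ} (h1 : Ex (pr PP T (1 + n)) c1)
    (h2 : Ex (pr PP T (2 + n)) c2) (hs : Up (ls PP T) s)
    (hsav : Up (ls PP T * (la PP T + (la PP T - ls PP T))) sav) (hy : UpV y b) :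
    Up (fN PP n T y) (LN c1 c2 s sav b) :=
  ((((hy.2.1.mul h1.compl.up).mul hs).two).add
    ((hy.2.2.mul h2.compl.up).mul hsav)).congr (fN_form PP n T y)

theorem LA_sound {n T : ℕ} {y : ℕ → ℝ} {b : Vec} {c0 c1 c2 a a2 : ℕ} (h0 : Ex (pr PP T (0 + n)) c0)
    (h1 : Ex (pr PP T (1 + n)) c1) (h2 : Ex (pr PP T (2 + n)) c2) (ha : Up (la PP T) a)
    (ha2 : Up (la PP T ^ 2) a2) (hy : UpV y b) :
    Up (fA PP n T y) (LA c0 c1 c2 a a2 b) :=
  (((hy.1.mul h0.up).add (((hy.2.1.mul h1.up).mul ha).two)).add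
    ((hy.2.2.mul h2.up).mul ha2)).congr (fA_form PP n T y)

theorem LS_sound {n T : ℕ} {y : ℕ → ℝ} {b : Vec} {c1 c2 ro rau : ℕ} (h1 : Ex (pr PP T (1 + n)) c1)
    (h2 : Ex (pr PP T (2 + n)) c2) (hro : Up (bet' PP * lr PP T) ro)
    (hrau : Up ((bet' PP * lr PP T) * (la PP T + (la PP T - bet' PP * lr PP T))) rau)
    (hy : UpV y b) : Up (fS PP n T y) (LS c1 c2 ro rau b) :=
  ((((hy.2.1.mul h1.up).mul hro).two).add
    ((hy.2.2.mul h2.up).mul hrau)).congr (fS_form PP n T y)

theorem LL_sound {T : ℕ} {y : ℕ → ℝ} {b : Vec} {a a2 : ℕ} (ha : Up (la PP T) a)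
    (ha2 : Up (la PP T ^ 2) a2) (hy : UpV y b) : Up (fL PP T y) (LL a a2 b) :=
  ((hy.1.add ((hy.2.1.mul ha).two)).add (hy.2.2.mul ha2)).congr (fL_form PP T y)

/-- the weights `η` -/
noncomputable def eta (c : ℕ) : ℝ := XX.HN c + XX.H0 c

theorem oNn_sound {a T : ℕ} (hT : T < 80) {r : Rec} (hr : GoodR T r) {y Z : Vec}
    (hy : UpV (YY PP a T) y) (hZ : UpV (ZZ PP eta a T) Z) {b : Bool} (hb : b = decide (T ≤ a)) :
    Up (oN PP XX T a) (oNn b r y Z) := by
  rw [oN_eq PP XX (show T < PP.K from hT), add_comm]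
  have hh : XX.HN T + XX.H0 T + XX.O3 T = ((r.hn + r.h0 + r.o3 : ℕ) : ℝ) := by
    rw [hr.hn, hr.h0, hr.o3]; push_cast; ring
  rw [hh]
  unfold oNn
  by_cases h : T ≤ a
  · have hn : nl a T = 1 := by simp [nl, h]
    rw [hb, decide_eq_true h, cond_true, hn]
    exact ((LN_sound (n := 1 + 1) hr.p3 hr.p4 hr.s hr.sav hy).nat' _).add
      (LN_sound (n := 1) hr.p2 hr.p3 hr.s hr.sav hZ)
  · have hn : nl a T = 0 := by simp [nl, h]
    rw [hb, decide_eq_false h, cond_false, hn]
    exact ((LN_sound (n := 0 + 1) hr.p2 hr.p3 hr.s hr.sav hy).nat' _).add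
      (LN_sound (n := 0) hr.p1 hr.p2 hr.s hr.sav hZ)

theorem o0n_sound {a T : ℕ} (hT : T < 80) {r : Rec} (hr : GoodR T r) {y Z : Vec}
    (hy : UpV (YY PP a T) y) (hZ : UpV (ZZ PP eta a T) Z) {b : Bool} (hb : b = decide (T ≤ a)) :
    Up (o0 PP XX T a) (o0n b r y Z) := by
  rw [o0_eq PP XX (show T ≤ PP.K from hT.le)]
  have hh : XX.HN T + XX.O3 T = ((r.hn + r.o3 : ℕ) : ℝ) := by
    rw [hr.hn, hr.o3]; push_cast; ring
  rw [hh, hr.h1, hr.h0]
  unfold o0n
  refine force_elim (fun z => Up _ z) _ _ fun ls els => ?_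
  refine force_elim (fun z => Up _ z) _ _ fun la ela => ?_
  by_cases h : T ≤ a
  · have hn : nl a T = 1 := by simp [nl, h]
    rw [hb, decide_eq_true h, cond_true] at els ela
    rw [hb, decide_eq_true h, cond_true, hn]
    have HS : Up (fS PP (1 + 1) T (YY PP a T)) ls := by
      rw [els]; exact LS_sound (n := 1 + 1) hr.p3 hr.p4 hr.ro hr.rau hy
    have HA : Up (fA PP (1 + 1) T (YY PP a T)) la := by
      rw [ela]; exact LA_sound (n := 1 + 1) hr.p2 hr.p3 hr.p4 hr.a hr.a2 hy
    exact (((((HS.nat' _).add (LS_sound (n := 1) hr.p2 hr.p3 hr.ro hr.rau hZ)).add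
      ((Ex_bet.up.mul HS).nat' _)).add ((Ex_bet.up.mul HA).nat' _)).add
      ((Ex_tau.up.mul HA).nat' _)).congr (by rw [add_comm (fS _ _ _ (ZZ _ _ _ _))]; rfl)
  · have hn : nl a T = 0 := by simp [nl, h]
    rw [hb, decide_eq_false h, cond_false] at els ela
    rw [hb, decide_eq_false h, cond_false, hn]
    have HS : Up (fS PP (0 + 1) T (YY PP a T)) ls := by
      rw [els]; exact LS_sound (n := 0 + 1) hr.p2 hr.p3 hr.ro hr.rau hy
    have HA : Up (fA PP (0 + 1) T (YY PP a T)) la := by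
      rw [ela]; exact LA_sound (n := 0 + 1) hr.p1 hr.p2 hr.p3 hr.a hr.a2 hy
    exact (((((HS.nat' _).add (LS_sound (n := 0) hr.p1 hr.p2 hr.ro hr.rau hZ)).add
      ((Ex_bet.up.mul HS).nat' _)).add ((Ex_bet.up.mul HA).nat' _)).add
      ((Ex_tau.up.mul HA).nat' _)).congr (by rw [add_comm (fS _ _ _ (ZZ _ _ _ _))]; rfl)

theorem o1n_sound {T : ℕ} (hT : T < 80) {r : Rec} (hr : GoodR T r) {y Z : Vec}
    (hy : UpV (YY PP T T) y) (hZ : UpV (ZZ PP eta T T) Z) :
    Up (o1 PP XX T) (o1n r y Z) := by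
  rw [o1_eq PP XX (show T ≤ PP.K from hT.le)]
  have hh : XX.HN T + XX.O3 T = ((r.hn + r.o3 : ℕ) : ℝ) := by
    rw [hr.hn, hr.o3]; push_cast; ring
  rw [hh, hr.h1, hr.h0]
  unfold o1n
  refine force_elim (fun z => Up _ z) _ _ fun la ela => ?_
  have hn : nl T T = 1 := by simp [nl]
  rw [hn]
  have HA : Up (fA PP (1 + 1) T (YY PP T T)) la := by
    rw [ela]; exact LA_sound (n := 1 + 1) hr.p2 hr.p3 hr.p4 hr.a hr.a2 hy
  exact (((((HA.nat' _).add (LA_sound (n := 1) hr.p1 hr.p2 hr.p3 hr.a hr.a2 hZ)).add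
    ((Ex_bet.up.mul HA).nat' _)).add ((Ex_bet.up.mul HA).nat' _)).add
    ((Ex_tau.up.mul HA).nat' _)).congr (by rw [add_comm (fA _ _ _ (ZZ _ _ _ _))]; rfl)

theorem upd_sound {α : Type} (C : α → Prop) {a T : ℕ} (hT : T < 80) {r : Rec} (hr : GoodR T r)
    {y Z : Vec} (hy : UpV (YY PP a T) y) (hZ : UpV (ZZ PP eta a T) Z) {b : Bool}
    (hb : b = decide (T ≤ a)) (k : Vec → Vec → α)
    (hk : ∀ y' Z', UpV (YY PP a (T + 1)) y' → UpV (ZZ PP eta a (T + 1)) Z' → C (k y' Z')) :
    C (upd b r y Z k) := by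
  have hT' : T < PP.K := hT
  have hη : eta T = ((r.hn + r.h0 : ℕ) : ℝ) := by
    unfold eta; rw [hr.hn, hr.h0]; push_cast; ring
  unfold upd
  by_cases h : T ≤ a
  · have hn : nl a T = 1 := by simp [nl, h]
    rw [hb, decide_eq_true h, cond_true]
    refine stepV_sound C (q := fun j => pr PP T (j + (nl a T + 1))) (y := YY PP a T)
      (by simp only [hn]; exact hr.p2) (by simp only [hn]; exact hr.p3)
      (by simp only [hn]; exact hr.p4) hr.d hr.d2 hy _ ?_
    intro y' hy'
    rw [← YY_succ PP hT'.le] at hy'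
    refine stepV_sound C (q := fun j => pr PP T (j + nl a T)) (y := ZZ PP eta a T)
      (by simp only [hn]; exact hr.p1) (by simp only [hn]; exact hr.p2)
      (by simp only [hn]; exact hr.p3) hr.d hr.d2 hZ _ ?_
    intro Z' hZ'
    refine force_elim C _ _ fun z0 e0 => ?_
    refine force_elim C _ _ fun z1 e1 => ?_
    refine force_elim C _ _ fun z2 e2 => ?_
    refine hk _ _ hy' ⟨?_, ?_, ?_⟩
    · rw [ZZ_succ PP eta hT', hη, e0]; exact hZ'.1.add (hy'.1.nat _)
    · rw [ZZ_succ PP eta hT', hη, e1]; exact hZ'.2.1.add (hy'.2.1.nat _)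
    · rw [ZZ_succ PP eta hT', hη, e2]; exact hZ'.2.2.add (hy'.2.2.nat _)
  · have hn : nl a T = 0 := by simp [nl, h]
    rw [hb, decide_eq_false h, cond_false]
    refine stepV_sound C (q := fun j => pr PP T (j + (nl a T + 1))) (y := YY PP a T)
      (by simp only [hn]; exact hr.p1) (by simp only [hn]; exact hr.p2)
      (by simp only [hn]; exact hr.p3) hr.d hr.d2 hy _ ?_
    intro y' hy'
    rw [← YY_succ PP hT'.le] at hy'
    refine stepV_sound C (q := fun j => pr PP T (j + nl a T)) (y := ZZ PP eta a T)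
      (by simp only [hn]; exact hr.p0) (by simp only [hn]; exact hr.p1)
      (by simp only [hn]; exact hr.p2) hr.d hr.d2 hZ _ ?_
    intro Z' hZ'
    refine force_elim C _ _ fun z0 e0 => ?_
    refine force_elim C _ _ fun z1 e1 => ?_
    refine force_elim C _ _ fun z2 e2 => ?_
    refine hk _ _ hy' ⟨?_, ?_, ?_⟩
    · rw [ZZ_succ PP eta hT', hη, e0]; exact hZ'.1.add (hy'.1.nat _)
    · rw [ZZ_succ PP eta hT', hη, e1]; exact hZ'.2.1.add (hy'.2.1.nat _)
    · rw [ZZ_succ PP eta hT', hη, e2]; exact hZ'.2.2.add (hy'.2.2.nat _)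

theorem O3_80 : XX.O3 80 = 0 := by
  have : ent 80 = (0, 0, 0, 0, 0) := by decide +kernel
  simp [XX, this]

theorem HN_80 : XX.HN 80 = (hnK : ℝ) := by simp [XX]

/-- the summand of `i3` -/
noncomputable def term3 (a c : ℕ) : ℝ := oN PP XX c a + if c < PP.K then o0 PP XX c a else 0

theorem inner_sound {aK aK2 : ℕ} (hK : Up (la PP 80) aK) (hK2 : Up (la PP 80 ^ 2) aK2) (a : ℕ)
    (ha : a < 80) (l : List Rec) (t : ℕ) (hat : a < t) (hl : GoodT t l) (y Z : Vec)
    (hy : UpV (YY PP a t) y) (hZ : UpV (ZZ PP eta a t) Z) (x : ℝ) (acc : ℕ) (hx : Up x acc) :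
    Up (x + ∑ c ∈ Finset.Ico t 81, term3 a c) (inner aK aK2 hnK acc l y Z) := by
  induction l generalizing t y Z x acc with
  | nil =>
    simp only [GoodT] at hl
    subst hl
    have h80 : Finset.Ico 80 81 = {80} := by decide
    rw [h80, Finset.sum_singleton]
    unfold inner
    refine hx.add ?_
    have : term3 a 80 = fL PP 80 (YY PP a 80) * (hnK : ℝ) + fL PP 80 (ZZ PP eta a 80) := by
      unfold term3
      have e : PP.K = 80 := rfl
      rw [e, if_neg (lt_irrefl _), add_zero]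
      have := oN_eq' PP XX a
      rw [e] at this
      rw [this, HN_80, O3_80, add_zero, add_comm]
      rfl
    rw [this]
    exact ((LL_sound hK hK2 hy).nat' _).add (LL_sound hK hK2 hZ)
  | cons r l ih =>
    obtain ⟨ht, hr, hl⟩ := hl
    have hb : false = decide (t ≤ a) := by simp [hat]
    unfold inner
    have e : x + ∑ c ∈ Finset.Ico t 81, term3 a c
        = (x + oN PP XX t a + o0 PP XX t a) + ∑ c ∈ Finset.Ico (t + 1) 81, term3 a c := by
      rw [Finset.sum_eq_sum_Ico_succ_bot (by omega)]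
      unfold term3
      rw [if_pos (show t < PP.K from ht)]
      ring
    rw [e]
    refine force_elim (fun z => Up _ z) _ _ fun acc' he => ?_
    have hacc : Up (x + oN PP XX t a + o0 PP XX t a) acc' := by
      rw [he]
      exact (hx.add (oNn_sound ht hr hy hZ hb)).add (o0n_sound ht hr hy hZ hb)
    refine upd_sound (fun z => Up _ z) ht hr hy hZ hb _ ?_
    intro y' Z' hy' hZ'
    exact ih (t + 1) (by omega) hl y' Z' hy' hZ' _ _ hacc

theorem le_sound {o h : ℕ} (hh : le o h = true) {x : ℝ} (hx : Up x o) {z : ℝ} (hz : z = h) :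
    x ≤ (3319 / 10000) * z := by
  unfold le at hh
  have h1 : o * 10000 ≤ 3319 * h * S := Nat.le_of_ble_eq_true hh
  have h2 : (o : ℝ) * 10000 ≤ 3319 * h * S := by exact_mod_cast h1
  have h3 := hx.2
  have h4 : x * S ≤ ((3319 / 10000) * z) * S := by rw [hz]; linarith
  exact le_of_mul_le_mul_right h4 Spos

/-- the inequalities at `T = t` -/
structure Ineq (t : ℕ) : Prop where
  iN : oN PP XX t t ≤ (3319 / 10000) * XX.HN t
  i0 : o0 PP XX t t ≤ (3319 / 10000) * XX.H0 t
  i1 : o1 PP XX t ≤ (3319 / 10000) * XX.H1 t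
  i3 : ∑ c ∈ Finset.Ico (t + 1) 81, term3 t c ≤ (3319 / 10000) * XX.O3 t

theorem outer_sound {aK aK2 : ℕ} (hK : Up (la PP 80) aK) (hK2 : Up (la PP 80 ^ 2) aK2)
    (l : List Rec) (t : ℕ) (hl : GoodT t l) (y Z : Vec)
    (hy : UpV (YY PP t t) y) (hZ : UpV (ZZ PP eta t t) Z)
    (hc : outer aK aK2 hnK l y Z = true) :
    (∀ s, t ≤ s → s < 80 → Ineq s) ∧ oN PP XX 80 80 ≤ (3319 / 10000) * XX.HN 80 := by
  induction l generalizing t y Z with
  | nil =>
    simp only [GoodT] at hl
    subst hl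
    refine ⟨fun s h1 h2 => by omega, ?_⟩
    unfold outer at hc
    refine le_sound hc ?_ HN_80
    have := oN_eq' PP XX 80
    have e : PP.K = 80 := rfl
    rw [e] at this
    rw [this, HN_80, O3_80, add_zero, add_comm]
    exact ((LL_sound hK hK2 hy).nat' _).add (LL_sound hK hK2 hZ)
  | cons r l ih =>
    obtain ⟨ht, hr, hl⟩ := hl
    have hb : true = decide (t ≤ t) := by simp
    unfold outer at hc
    simp only [Bool.and_eq_true] at hc
    obtain ⟨⟨⟨c1, c2⟩, c3⟩, c4⟩ := hc
    have key : ∀ z : Bool, z = true → z = true := fun _ h => h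
    have h4 : ((∑ c ∈ Finset.Ico (t + 1) 81, term3 t c ≤ (3319 / 10000) * XX.O3 t) ∧
        ((∀ s, t + 1 ≤ s → s < 80 → Ineq s) ∧ oN PP XX 80 80 ≤ (3319 / 10000) * XX.HN 80)) := by
      revert c4
      refine upd_sound (fun z : Bool => z = true → _) ht hr hy hZ hb _ ?_
      intro y' Z' hy' hZ' hc
      rw [Bool.and_eq_true] at hc
      refine ⟨?_, ?_⟩
      · have := inner_sound hK hK2 t ht l (t + 1) (Nat.lt_succ_self t) hl y' Z' hy' hZ' 0 0 Up.zero
        rw [zero_add] at this
        exact le_sound hc.1 this hr.o3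
      · refine ih (t + 1) hl y' Z' ?_ ?_ hc.2
        · rw [← YY_self PP (Nat.le_refl _)]
          have e : YY PP t (t + 1) = YY PP (t + 1) (t + 1) := by
            unfold YY
            apply yv_congr
            intro s hs
            simp [nn, show s ≤ t by omega, show s ≤ t + 1 by omega]
          rw [← e]; exact hy'
        · have e : ZZ PP eta t (t + 1) = ZZ PP eta (t + 1) (t + 1) := by
            unfold ZZ
            funext j
            apply Finset.sum_congr rfl
            intro c _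
            rw [yv_congr PP (n := nn t c) (n' := nn (t + 1) c)]
            intro s hs
            simp [nn, show s ≤ t by omega, show s ≤ t + 1 by omega]
          rw [← e]; exact hZ'
    refine ⟨?_, h4.2.2⟩
    intro s hs hs'
    rcases Nat.eq_or_lt_of_le hs with rfl | hlt
    · exact ⟨le_sound c1 (oNn_sound ht hr hy hZ hb) hr.hn, le_sound c2 (o0n_sound ht hr hy hZ hb) hr.h0,
        le_sound c3 (o1n_sound ht hr hy hZ) hr.h1, h4.1⟩
    · exact h4.2.1 s hlt hs'

theorem table_good : GoodT 0 (table true ⟨0, 0, 0, S, S⟩ data).1 ∧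
    Up (la PP 80) (table true ⟨0, 0, 0, S, S⟩ data).2 := by
  refine table_sound true 0 (by simp) data _ goodL_zero (by rw [data_length]) ?_
  intro i _
  rw [zero_add]
  rfl

theorem all_ineq : (∀ s, s < 80 → Ineq s) ∧ oN PP XX 80 80 ≤ (3319 / 10000) * XX.HN 80 := by
  have hc := check_true
  obtain ⟨h1, h2⟩ := table_good
  unfold check at hc
  simp only [force_eq] at hc
  have := outer_sound h2 h2.sq _ 0 h1 ⟨0, 0, S⟩ ⟨0, 0, 0⟩ ?_ ?_ hc
  · exact ⟨fun s hs => this.1 s (Nat.zero_le _) hs, this.2⟩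
  · refine ⟨?_, ?_, ?_⟩ <;> simp only [YY, yv, yG] <;> norm_num
    · exact Up.zero
    · exact Up.zero
    · exact Up.one
  · refine ⟨?_, ?_, ?_⟩ <;> simp only [ZZ, Finset.range_zero, Finset.sum_empty] <;> exact Up.zero

theorem goodR (t : ℕ) (ht : t < 80) : ∃ r, GoodR t r := table_good.1.get (Nat.zero_le _) ht

theorem ld_nonneg {t : ℕ} (ht : t < 80) : 0 ≤ ld PP t := by
  obtain ⟨r, hr⟩ := goodR t ht
  exact hr.d.1

theorem la_nonneg {t : ℕ} (ht : t ≤ 80) : 0 ≤ la PP t := by
  rcases Nat.eq_or_lt_of_le ht with rfl | h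
  · exact table_good.2.1
  · obtain ⟨r, hr⟩ := goodR t h
    exact hr.a.1

theorem pr_nonneg (t d : ℕ) : 0 ≤ pr PP t d := by unfold pr; positivity

theorem pr_le_one (t d : ℕ) : pr PP t d ≤ 1 := (Ex_pr (t := t) (d := d) rfl).2.1

theorem yv_nonneg (n : ℕ → ℕ) {t : ℕ} (ht : t ≤ 80) (j : ℕ) : 0 ≤ yv PP 2 n t j := by
  induction t generalizing j with
  | zero =>
    simp only [yv, yG]
    split_ifs <;> norm_num
  | succ t ih =>
    rw [yv_succ]
    unfold stepY
    apply Finset.sum_nonneg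
    intro i _
    have h1 := ih (by omega) i
    have h2 := pr_le_one t (i + n t)
    have h3 := ld_nonneg (t := t) (by omega)
    have h4 : 0 ≤ 1 - pr PP t (i + n t) := by linarith
    positivity

theorem ls_nonneg {t : ℕ} (ht : t < 80) : 0 ≤ ls PP t := (goodR t ht).choose_spec.s.1

theorem ent_pos {t : ℕ} (ht : t < 80) : 0 < (ent t).2.1 ∧ 0 < (ent t).2.2.1 ∧
    0 < (ent t).2.2.2.1 ∧ 0 < (ent t).2.2.2.2 := by
  have : ∀ i : Fin 80, 0 < (ent i).2.1 ∧ 0 < (ent i).2.2.1 ∧
    0 < (ent i).2.2.2.1 ∧ 0 < (ent i).2.2.2.2 := by decide +kernel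
  exact this ⟨t, ht⟩

theorem xcert : XCert PP XX (3319 / 10000) where
  posN := by
    intro T hT
    have hT : T ≤ 80 := hT
    by_cases h : T = 80
    · subst h
      rw [HN_80]
      norm_num [hnK]
    · have := (ent_pos (show T < 80 by omega)).1
      simp only [XX, h, if_false]
      exact_mod_cast this
  pos0 := by
    intro T hT
    have := (ent_pos (show T < 80 from hT)).2.1
    show (0 : ℝ) < ((ent T).2.2.1 : ℝ)
    exact_mod_cast this
  pos1 := by
    intro T hT
    have := (ent_pos (show T < 80 from hT)).2.2.1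
    show (0 : ℝ) < ((ent T).2.2.2.1 : ℝ)
    exact_mod_cast this
  pos3 := by
    intro T hT
    have := (ent_pos (show T < 80 from hT)).2.2.2
    show (0 : ℝ) < ((ent T).2.2.2.2 : ℝ)
    exact_mod_cast this
  non3 := by
    have e : PP.K = 80 := rfl
    rw [e, O3_80]
  nonwN := by
    intro a c T hT
    have hT : T ≤ 80 := hT
    have y0 := yv_nonneg (nn a c) hT 0
    have y1 := yv_nonneg (nn a c) hT 1
    have y2 := yv_nonneg (nn a c) hT 2
    have ha := la_nonneg hT
    by_cases h : T < PP.K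
    · rw [wN_eq PP h, fN_form]
      obtain ⟨r, hr⟩ := goodR T h
      have h1 := hr.s.1
      have h2 := hr.sav.1
      have h3 : 0 ≤ 1 - pr PP T (1 + nn a c T) := by linarith [pr_le_one T (1 + nn a c T)]
      have h4 : 0 ≤ 1 - pr PP T (2 + nn a c T) := by linarith [pr_le_one T (2 + nn a c T)]
      have h5 := mul_nonneg (mul_nonneg y1 h3) h1
      have h6 := mul_nonneg (mul_nonneg y2 h4) h2
      linarith
    · rw [wN_eq' PP h, fL_form]
      positivity
  nonwA := by
    intro a c T hT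
    have hT : T < 80 := hT
    have y0 := yv_nonneg (nn a c) hT.le 0
    have y1 := yv_nonneg (nn a c) hT.le 1
    have y2 := yv_nonneg (nn a c) hT.le 2
    have ha := la_nonneg hT.le
    rw [wA_eq, fA_form]
    have h0 := pr_nonneg T (0 + nn a c T)
    have h1 := pr_nonneg T (1 + nn a c T)
    have h2 := pr_nonneg T (2 + nn a c T)
    positivity
  nonwS := by
    intro a c T hT
    have hT : T < 80 := hT
    have y1 := yv_nonneg (nn a c) hT.le 1
    have y2 := yv_nonneg (nn a c) hT.le 2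
    obtain ⟨r, hr⟩ := goodR T hT
    rw [wS_eq, fS_form]
    have h1 := pr_nonneg T (1 + nn a c T)
    have h2 := pr_nonneg T (2 + nn a c T)
    have h3 := hr.ro.1
    have h4 := hr.rau.1
    have h5 := mul_nonneg (mul_nonneg y1 h1) h3
    have h6 := mul_nonneg (mul_nonneg y2 h2) h4
    linarith
  iN := by
    intro T hT
    have hT : T ≤ 80 := hT
    rcases Nat.eq_or_lt_of_le hT with rfl | h
    · exact all_ineq.2
    · exact (all_ineq.1 T h).iN
  i0 := fun T hT => (all_ineq.1 T hT).i0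
  i1 := fun T hT => (all_ineq.1 T hT).i1
  i3 := by
    intro T hT
    have := (all_ineq.1 T hT).i3
    have e : Finset.Ioc T PP.K = Finset.Ico (T + 1) 81 := by
      ext c
      simp only [Finset.mem_Ioc, Finset.mem_Ico]
      have : PP.K = 80 := rfl
      omega
    rw [e]
    exact this

/-- The numerical certificate, given packet F1. -/
theorem stmtCert (h : StmtXCert) : StmtCert := by
  obtain ⟨GN, G0, G1, hG⟩ := h PP XX (3319 / 10000) (332 / 1000) (by norm_num) (by norm_num) xcert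
  exact ⟨PP, 332 / 1000, GN, G0, G1, by norm_num, by norm_num, hG⟩

end Pool.Agent.Helper41.Girth4.Num
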