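import Pool.Agent.Helper41.Girth4.LawForms
import Pool.Agent.Helper41.Girth4.Num

/-!
# Soundness of the numerical certificate
-/

namespace Pool.Agent.Helper41.Girth4.Num

open Finset

theorem Spos : (0 : ℝ) < (S : ℝ) := by norm_num [S]

theorem Spos' : 0 < S := by norm_num [S]

/-- `h` is an upper bound for `x ≥ 0` at scale `S` -/
def Up (x : ℝ) (h : ℕ) : Prop := 0 ≤ x ∧ x * S ≤ h

/-- `h` is the exact value of `x ∈ [0, 1]` at scale `S` -/
def Ex (x : ℝ) (h : ℕ) : Prop := 0 ≤ x ∧ x ≤ 1 ∧ x * S = h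

theorem Ex.up {x : ℝ} {h : ℕ} (hx : Ex x h) : Up x h := ⟨hx.1, hx.2.2.le⟩

theorem Ex.le {x : ℝ} {h : ℕ} (hx : Ex x h) : h ≤ S := by
  have h1 : (h : ℝ) ≤ S := by
    rw [← hx.2.2]
    have := mul_le_mul_of_nonneg_right hx.2.1 Spos.le
    linarith
  exact_mod_cast h1

theorem Ex.compl {x : ℝ} {h : ℕ} (hx : Ex x h) : Ex (1 - x) (S - h) := by
  refine ⟨by linarith [hx.2.1], by linarith [hx.1], ?_⟩
  rw [Nat.cast_sub hx.le, ← hx.2.2]
  ring

theorem Up.add {x y : ℝ} {h k : ℕ} (hx : Up x h) (hy : Up y k) : Up (x + y) (h + k) := by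
  refine ⟨add_nonneg hx.1 hy.1, ?_⟩
  push_cast
  linarith [hx.2, hy.2]

theorem Up.mul {x y : ℝ} {h k : ℕ} (hx : Up x h) (hy : Up y k) : Up (x * y) (mU h k) := by
  refine ⟨mul_nonneg hx.1 hy.1, ?_⟩
  have h1 : (x * S) * (y * S) ≤ (h : ℝ) * k :=
    mul_le_mul hx.2 hy.2 (mul_nonneg hy.1 Spos.le) (Nat.cast_nonneg _)
  have h2 : h * k < S * (h * k / S + 1) := Nat.lt_mul_div_succ _ Spos'
  have h3 : ((h : ℝ) * k) < S * ((h * k / S + 1 : ℕ) : ℝ) := by exact_mod_cast h2
  have h4 : (x * y * S) * S ≤ (mU h k : ℝ) * S := by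
    unfold mU
    nlinarith
  exact le_of_mul_le_mul_right h4 Spos

theorem Up.nat {x : ℝ} {h : ℕ} (hx : Up x h) (n : ℕ) : Up ((n : ℝ) * x) (n * h) := by
  refine ⟨mul_nonneg (Nat.cast_nonneg _) hx.1, ?_⟩
  push_cast
  rw [mul_assoc]
  exact mul_le_mul_of_nonneg_left hx.2 (Nat.cast_nonneg _)

theorem Up.nat' {x : ℝ} {h : ℕ} (hx : Up x h) (n : ℕ) : Up (x * (n : ℝ)) (h * n) := by
  rw [mul_comm x, mul_comm h]; exact hx.nat n

theorem Up.two {x : ℝ} {h : ℕ} (hx : Up x h) : Up (2 * x) (2 * h) := by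
  have := hx.nat 2; exact_mod_cast this

theorem Up.three {x : ℝ} {h : ℕ} (hx : Up x h) : Up (3 * x) (3 * h) := by
  have := hx.nat 3; exact_mod_cast this

theorem Up.one : Up 1 S := ⟨zero_le_one, by simp⟩

theorem Up.zero : Up 0 0 := ⟨le_refl _, by simp⟩

theorem Up.congr {x y : ℝ} {h : ℕ} (hx : Up x h) (e : y = x) : Up y h := e ▸ hx

theorem Up.sq {x : ℝ} {h : ℕ} (hx : Up x h) : Up (x ^ 2) (mU h h) :=
  (hx.mul hx).congr (by ring)

/-! ### parameters -/

/-- entry of the data -/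
def ent (t : ℕ) : ℕ × ℕ × ℕ × ℕ × ℕ := data.getD t (0, 0, 0, 0, 0)

theorem data_length : data.length = 80 := by decide +kernel

theorem ent_le (t : ℕ) : (ent t).1 ≤ 1000000 := by
  unfold ent
  rcases lt_or_ge t data.length with h | h
  · rw [List.getD_eq_getElem _ _ h]
    have : ∀ i : Fin data.length, (data.get i).1 ≤ 1000000 := by decide +kernel
    exact this ⟨t, h⟩
  · rw [List.getD_eq_default _ _ h]
    exact Nat.zero_le _

/-- ringing thresholds -/
def thrF (t d : ℕ) : ℕ :=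
  if t = 0 then (ent 0).1 else if d ≤ 1 then 1000000 else if d = 2 then (ent t).1 else 0

theorem thrF_le (t d : ℕ) : thrF t d ≤ 1000000 := by
  unfold thrF
  split_ifs
  · exact ent_le 0
  · exact le_refl _
  · exact ent_le t
  · exact Nat.zero_le _

/-- the parameters of the process -/
def PP : Par where
  K := 80
  N := 1000000
  M := 9765625
  thr := thrF
  hN := by norm_num
  hM := by norm_num
  hthr := thrF_le

/-- the compact certificate -/
noncomputable def XX : XC where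
  HN t := if t = 80 then (hnK : ℝ) else ((ent t).2.1 : ℝ)
  H0 t := ((ent t).2.2.1 : ℝ)
  H1 t := ((ent t).2.2.2.1 : ℝ)
  O3 t := ((ent t).2.2.2.2 : ℝ)

theorem Ex_pr {t d θ : ℕ} (h : thrF t d = θ) :
    Ex (pr PP t d) (θ * 1000000000000000000000000000000000000000000000000000000) := by
  have h1 : (θ : ℝ) ≤ 1000000 := by rw [← h]; exact_mod_cast thrF_le t d
  have h2 : pr PP t d = (θ : ℝ) / 1000000 := by
    have : pr PP t d = ((thrF t d : ℕ) : ℝ) / ((1000000 : ℕ) : ℝ) := rfl
    rw [this, h]; norm_num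
  rw [h2]
  refine ⟨by positivity, ?_, ?_⟩
  · rw [div_le_one (by norm_num)]; exact h1
  · have : (S : ℝ) = 1000000 * 1000000000000000000000000000000000000000000000000000000 := by
      norm_num [S]
    rw [this]
    push_cast
    ring

theorem Ex_bet : Ex (bet PP) beS := by
  have hb : bet PP = (9765625 - 1) / (2 * 9765625) := by
    have : bet PP = (((9765625 : ℕ) : ℝ) - 1) / (2 * ((9765625 : ℕ) : ℝ)) := rfl
    rw [this]; norm_num
  rw [hb]
  refine ⟨by norm_num, by norm_num, ?_⟩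
  norm_num [S, beS]

theorem Ex_bet' : Ex (bet' PP) be1S := by
  have hb : bet' PP = (9765625 + 1) / (2 * 9765625) := by
    have : bet' PP = (((9765625 : ℕ) : ℝ) + 1) / (2 * ((9765625 : ℕ) : ℝ)) := rfl
    rw [this]; norm_num
  rw [hb]
  refine ⟨by norm_num, by norm_num, ?_⟩
  norm_num [S, be1S]

theorem Ex_tau : Ex (1 / (PP.M : ℝ)) tauS := by
  have hb : (1 / (PP.M : ℝ)) = 1 / 9765625 := by
    have : (PP.M : ℝ) = ((9765625 : ℕ) : ℝ) := rfl
    rw [this]; norm_num
  rw [hb]
  refine ⟨by norm_num, by norm_num, ?_⟩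
  norm_num [S, tauS]

/-! ### the law -/

/-- invariant of the law state -/
def GoodL (t : ℕ) (st : LSt) : Prop :=
  Up (lg PP t 0) st.g0 ∧ Up (lg PP t 1) st.g1 ∧ Up (lg PP t 2) st.g2 ∧ Up (lg PP t 3) st.g3 ∧
    Up (la PP t) st.a

theorem goodL_zero : GoodL 0 ⟨0, 0, 0, S, S⟩ := by
  refine ⟨?_, ?_, ?_, ?_, ?_⟩ <;> simp only [lg, la, law] <;> norm_num
  · exact Up.zero
  · exact Up.zero
  · exact Up.zero
  · exact Up.one
  · exact Up.one

/-- what is known about a record -/
structure GoodR (t : ℕ) (r : Rec) : Prop where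
  p0 : Ex (pr PP t 0) r.p0
  p1 : Ex (pr PP t 1) r.p1
  p2 : Ex (pr PP t 2) r.p2
  p3 : Ex (pr PP t 3) r.p3
  p4 : Ex (pr PP t 4) r.p4
  a : Up (la PP t) r.a
  a2 : Up (la PP t ^ 2) r.a2
  s : Up (ls PP t) r.s
  sav : Up (ls PP t * (la PP t + (la PP t - ls PP t))) r.sav
  ro : Up (bet' PP * lr PP t) r.ro
  rau : Up ((bet' PP * lr PP t) * (la PP t + (la PP t - bet' PP * lr PP t))) r.rau
  d : Up (ld PP t) r.d
  d2 : Up (ld PP t ^ 2) r.d2
  hn : XX.HN t = r.hn
  h0 : XX.H0 t = r.h0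
  h1 : XX.H1 t = r.h1
  o3 : XX.O3 t = r.o3

theorem lawStep_sound {α : Type} (C : α → Prop) {t : ℕ} {st : LSt} (hst : GoodL t st)
    {p1 p2 p3 p4 : ℕ} (h1 : Ex (pr PP t 1) p1) (h2 : Ex (pr PP t 2) p2) (h3 : Ex (pr PP t 3) p3)
    (h4 : Ex (pr PP t 4) p4) (k : LSt → (a2 s sav ro rau d d2 : ℕ) → α)
    (hk : ∀ st' a2 s sav ro rau d d2, GoodL (t + 1) st' → Up (la PP t ^ 2) a2 → Up (ls PP t) s →
      Up (ls PP t * (la PP t + (la PP t - ls PP t))) sav → Up (bet' PP * lr PP t) ro →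
      Up ((bet' PP * lr PP t) * (la PP t + (la PP t - bet' PP * lr PP t))) rau →
      Up (ld PP t) d → Up (ld PP t ^ 2) d2 → C (k st' a2 s sav ro rau d d2)) :
    C (lawStep st p1 p2 p3 p4 k) := by
  obtain ⟨G0, G1, G2, G3, A⟩ := hst
  unfold lawStep
  simp only []
  refine force_elim C _ _ fun a2 e => ?_
  have A2 : Up (la PP t ^ 2) a2 := by rw [e]; exact A.sq
  clear e
  refine force_elim C _ _ fun a3 e => ?_
  have A3 : Up (la PP t ^ 3) a3 := by rw [e]; exact (A2.mul A).congr (by ring)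
  clear e
  refine force_elim C _ _ fun x0 e => ?_
  have X0 : Up (lg PP t 0 * pr PP t 1) x0 := by rw [e]; exact G0.mul h1.up
  clear e
  refine force_elim C _ _ fun x1 e => ?_
  have X1 : Up (lg PP t 1 * pr PP t 2) x1 := by rw [e]; exact G1.mul h2.up
  clear e
  refine force_elim C _ _ fun x2 e => ?_
  have X2 : Up (lg PP t 2 * pr PP t 3) x2 := by rw [e]; exact G2.mul h3.up
  clear e
  refine force_elim C _ _ fun x3 e => ?_
  have X3 : Up (lg PP t 3 * pr PP t 4) x3 := by rw [e]; exact G3.mul h4.up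
  clear e
  refine force_elim C _ _ fun n0 e => ?_
  have N0 : Up (lg PP t 0 * (1 - pr PP t 1)) n0 := by rw [e]; exact G0.mul h1.compl.up
  clear e
  refine force_elim C _ _ fun n1 e => ?_
  have N1 : Up (lg PP t 1 * (1 - pr PP t 2)) n1 := by rw [e]; exact G1.mul h2.compl.up
  clear e
  refine force_elim C _ _ fun n2 e => ?_
  have N2 : Up (lg PP t 2 * (1 - pr PP t 3)) n2 := by rw [e]; exact G2.mul h3.compl.up
  clear e
  refine force_elim C _ _ fun n3 e => ?_
  have N3 : Up (lg PP t 3 * (1 - pr PP t 4)) n3 := by rw [e]; exact G3.mul h4.compl.up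
  clear e
  refine force_elim C _ _ fun r e => ?_
  have R : Up (lr PP t) r := by
    rw [e]
    exact (((X0.add (X1.mul A).three).add (X2.mul A2).three).add (X3.mul A3)).congr (lr_form PP t)
  clear e
  refine force_elim C _ _ fun ro e => ?_
  have RO : Up (bet' PP * lr PP t) ro := by rw [e]; exact Ex_bet'.up.mul R
  clear e
  refine force_elim C _ _ fun an e => ?_
  have AN := ((N0.add (N1.mul A).three).add (N2.mul A2).three).add (N3.mul A3)
  rw [← e] at AN
  clear e
  refine force_elim C _ _ fun u e => ?_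
  have U : Up (la PP t - bet' PP * lr PP t) u := by
    rw [e]; exact (AN.add (Ex_bet.up.mul R)).congr (u_form PP t)
  clear e
  refine force_elim C _ _ fun u2 e => ?_
  have U2 : Up ((la PP t - bet' PP * lr PP t) ^ 2) u2 := by rw [e]; exact U.sq
  clear e
  refine force_elim C _ _ fun u3 e => ?_
  have U3 : Up ((la PP t - bet' PP * lr PP t) ^ 3) u3 := by
    rw [e]; exact (U2.mul U).congr (by ring)
  clear e
  refine force_elim C _ _ fun s e => ?_
  have SS : Up (ls PP t) s := by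
    rw [e]
    exact (((X0.add (X1.mul U).three).add (X2.mul U2).three).add (X3.mul U3)).congr (ls_form PP t)
  clear e
  refine force_elim C _ _ fun rau e => ?_
  have RAU : Up ((bet' PP * lr PP t) * (la PP t + (la PP t - bet' PP * lr PP t))) rau := by
    rw [e]; exact RO.mul (A.add U)
  clear e
  refine force_elim C _ _ fun xd e => ?_
  have XD := ((X1.mul RO).three.add (X2.mul RAU).three).add
    (X3.mul (RO.mul ((A2.add (A.mul U)).add U2)))
  rw [← e] at XD
  clear e
  refine force_elim C _ _ fun v e => ?_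
  have V : Up (la PP t - ls PP t) v := by
    rw [e]; exact (XD.add AN).congr (v_form PP t)
  clear e
  refine force_elim C _ _ fun v2 e => ?_
  have V2 : Up ((la PP t - ls PP t) ^ 2) v2 := by rw [e]; exact V.sq
  clear e
  refine force_elim C _ _ fun v3 e => ?_
  have V3 : Up ((la PP t - ls PP t) ^ 3) v3 := by rw [e]; exact (V2.mul V).congr (by ring)
  clear e
  refine force_elim C _ _ fun a' e => ?_
  have A' : Up (la PP (t + 1)) a' := by
    rw [e]
    exact (((N0.add (N1.mul V).three).add (N2.mul V2).three).add (N3.mul V3)).congr (la_succ PP t)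
  clear e
  refine force_elim C _ _ fun sav e => ?_
  have SAV : Up (ls PP t * (la PP t + (la PP t - ls PP t))) sav := by
    rw [e]; exact SS.mul (A.add V)
  clear e
  refine force_elim C _ _ fun d e => ?_
  have D : Up (ld PP t) d := by
    rw [e]
    exact (((XD.add (N1.mul SS).three).add (N2.mul SAV).three).add
      (N3.mul (SS.mul ((A2.add (A.mul V)).add V2)))).congr (d_form PP t)
  clear e
  refine force_elim C _ _ fun d2 e => ?_
  have D2 : Up (ld PP t ^ 2) d2 := by rw [e]; exact D.sq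
  clear e
  refine force_elim C _ _ fun d3 e => ?_
  have D3 : Up (ld PP t ^ 3) d3 := by rw [e]; exact (D2.mul D).congr (by ring)
  clear e
  obtain ⟨e0, e1, e2, e3⟩ := lg_succ PP t
  refine force_elim C _ _ fun g0 e => ?_
  have G0' : Up (lg PP (t + 1) 0) g0 := by
    rw [e]
    exact (((N0.add (N1.mul D).three).add (N2.mul D2).three).add (N3.mul D3)).congr e0
  clear e
  refine force_elim C _ _ fun g1 e => ?_
  have G1' : Up (lg PP (t + 1) 1) g1 := by
    rw [e]
    exact ((N1.add (N2.mul D).two).add (N3.mul D2)).congr e1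
  clear e
  refine force_elim C _ _ fun g2 e => ?_
  have G2' : Up (lg PP (t + 1) 2) g2 := by
    rw [e]
    exact (N2.add (N3.mul D)).congr e2
  clear e
  exact hk _ _ _ _ _ _ _ _ ⟨G0', G1', G2', N3.congr e3, A'⟩ A2 SS SAV RO RAU D D2

end Pool.Agent.Helper41.Girth4.Num
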