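import Pool.Agent.Helper41.Girth4.Defs

/-!
# Statements of the packets for MP_246f82_co
-/

namespace Pool.Agent.Helper41.Girth4

open Finset

universe u

/-- Packet A: a non-backtracking path avoiding `B` gives the tree event of the unfolding. -/
def StmtPath (P : Par) : Prop :=
  ∀ {V : Type u} (G : PG V) (ω : V → Lab P) (d : V × Fin 4) (w : List (Fin 3)),
    (∀ k ≤ w.length, ¬ G.inB ω (G.go d (w.take k)).1) → TB0 w (G.unf ω d)

/-- Packet B: locality of the tree event. -/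
def StmtLocal (P : Par) : Prop :=
  ∀ (w : List (Fin 3)) (X Y : Tr P), (∀ z ∈ Cat (3 * P.K + 3) w, X z = Y z) → TB0 w X → TB0 w Y

/-- Packet C: one vertex with `m` independent children. -/
def StmtVertex (P : Par) : Prop :=
  ∀ {Ω : Type} [Finite Ω] [Nonempty Ω] (A S : ℕ → Ω → Prop), (∀ x, A 0 x) →
    (∀ s x, S s x → A s x) → (∀ s x, A (s + 1) x → A s x ∧ ¬ S s x) →
    ∀ (m : ℕ) (n : ℕ → ℕ) (δ : ℕ → ℝ) (T : ℕ), T ≤ P.K →
    (∀ s < T, Pr (fun x => A s x ∧ ¬ S s x ∧ ¬ A (s + 1) x) = δ s) →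
    ∀ E : Ω → Prop, (∀ x, E x → A T x) → ∀ j ≤ m,
    (Pr (fun z : (Fin P.K → Fin P.N) × (Fin m → Ω) =>
        (∀ t < T, ¬ (clk P z.1 t < P.thr t (cnt (fun k => A t (z.2 k)) + n t)) ∧
          ∀ k, ¬ S t (z.2 k)) ∧
        cnt (fun k => A T (z.2 k)) = j ∧ ∀ k, A T (z.2 k) → E (z.2 k))
      = (m.choose j : ℝ) * yG m (fun t i => pr P t (i + n t)) δ T j * Pr E ^ j) ∧
    (T < P.K → ∀ θ ≤ P.N,
      Pr (fun z : (Fin P.K → Fin P.N) × (Fin m → Ω) =>
        (∀ t < T, ¬ (clk P z.1 t < P.thr t (cnt (fun k => A t (z.2 k)) + n t)) ∧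
          ∀ k, ¬ S t (z.2 k)) ∧
        cnt (fun k => A T (z.2 k)) = j ∧ (∀ k, A T (z.2 k) → E (z.2 k)) ∧ clk P z.1 T < θ)
      = (m.choose j : ℝ) * yG m (fun t i => pr P t (i + n t)) δ T j * Pr E ^ j *
        ((θ : ℝ) / P.N))

/-- Packet D: the law of the process on trees. -/
def StmtLaw (P : Par) : Prop :=
  (∀ t ≤ P.K, ∀ D, 3 * t ≤ D → Pr (fun X : Pos D → Lab P => Al t (ext D X)) = la P t) ∧
  (∀ t < P.K, ∀ D, 3 * t + 1 ≤ D → Pr (fun X : Pos D → Lab P => Rg t (ext D X)) = lr P t) ∧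
  (∀ t < P.K, ∀ D, 3 * t + 1 ≤ D → ∀ ℓ : ZMod P.M,
    Pr (fun X : Pos D → Lab P => Rg t (ext D X) ∧ ¬ beats ℓ (ext D X []).2)
      = bet' P * lr P t) ∧
  (∀ t < P.K, ∀ D, 3 * t + 2 ≤ D → Pr (fun X : Pos D → Lab P => St t (ext D X)) = ls P t) ∧
  (∀ t < P.K, ∀ D, 3 * t + 3 ≤ D →
    Pr (fun X : Pos D → Lab P => Al t (ext D X) ∧ ¬ St t (ext D X) ∧ ¬ Al (t + 1) (ext D X))
      = ld P t)

/-- Packet E: exponential decay of the probability of the tree event. -/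
def StmtSum (P : Par) : Prop :=
  ∀ (μ : ℝ) (GN G0 : ℕ → ℕ → ℝ) (G1 : ℕ → ℝ), 0 < μ → Cert P μ GN G0 G1 →
    ∃ C : ℝ, ∀ (w : List (Fin 3)) (D : ℕ), w.length + (3 * P.K + 3) ≤ D →
      Pr (fun X : Pos D → Lab P => TB0 w (ext D X)) ≤ C * μ ^ w.length

/-- Packet F: the numerical certificate. -/
def StmtCert : Prop :=
  ∃ (P : Par) (μ : ℝ) (GN G0 : ℕ → ℕ → ℝ) (G1 : ℕ → ℝ),
    0 < μ ∧ 3 * μ < 1 ∧ Cert P μ GN G0 G1

/-- Packet G: a random function composed with an injection is a random function. -/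
def StmtUnif : Prop :=
  ∀ {A : Type} {B : Type u} {L : Type} [Finite A] [Finite B] [Finite L] [Nonempty L] (e : A → B),
    Function.Injective e → ∀ Φ : (A → L) → Prop, Pr (fun ω : B → L => Φ (ω ∘ e)) = Pr Φ

/-- Packet H: the symmetric Lovasz local lemma on finite product spaces. -/
def StmtLLL : Prop :=
  ∀ {I J : Type u} {L : Type} [Finite I] [Finite J] [Finite L] [Nonempty L]
    (S : J → Set I) (A : J → (I → L) → Prop),
    (∀ j ω ω', (∀ i ∈ S j, ω i = ω' i) → A j ω → A j ω') →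
    ∀ (p : ℝ) (d : ℕ), (∀ j, Pr (A j) ≤ p) → 1 ≤ d →
    (∀ j, Nat.card {j' // ¬ Disjoint (S j) (S j')} ≤ d) → 4 * p * d ≤ 1 →
    ∃ ω, ∀ j, ¬ A j ω

/-- Packet I1: non-backtracking walks of length at most `R` with the same ends are equal if the
girth is larger than `2R`. -/
def StmtNB : Prop :=
  ∀ (V : Type u) (G : SimpleGraph V) (R : ℕ), ((2 * R : ℕ) : ℕ∞) < G.egirth →
    ∀ (x y : V) (p q : G.Walk x y), p.length ≤ R → q.length ≤ R →
    (∀ i, i + 2 ≤ p.length → p.getVert i ≠ p.getVert (i + 2)) →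
    (∀ i, i + 2 ≤ q.length → q.getVert i ≠ q.getVert (i + 2)) → p = q

/-- Packet I: port graphs for graphs of maximum degree at most 4 (missing neighbours are replaced
by hanging trees), and injectivity of the unfolding below the girth. -/
def StmtPorts : Prop :=
  ∀ (V : Type u) [Fintype V] (G : SimpleGraph V) [DecidableRel G.Adj] (R : ℕ),
    (∀ v, G.degree v ≤ 4) → ((2 * R : ℕ) : ℕ∞) < G.egirth →
    ∃ (W : Type u) (H : PG (V ⊕ W)),
      (∀ u v, G.Adj u v ↔ ∃ i, H.nb (Sum.inl u) i = Sum.inl v) ∧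
      (∀ v q, Set.InjOn (fun w => (H.go (Sum.inl v, q) w).1) {w | w.length ≤ R})

/-- The vertices at which the event of the path `(v, q, w)` looks. -/
def supp {V' : Type u} (H : PG V') (D₀ : ℕ) (d : V' × Fin 4) (w : List (Fin 3)) : Set V' :=
  (fun z => (H.go d z).1) '' Cat D₀ w

/-- Packet J: counting dependencies. -/
def StmtCount : Prop :=
  ∀ D₀ : ℕ, ∃ c : ℕ, ∀ {V V' : Type u} [Finite V] (f : V → V') (_ : Function.Injective f)
    (H : PG V') (n : ℕ) (j : V × Fin 4 × (Fin n → Fin 3)),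
    Nat.card {j' : V × Fin 4 × (Fin n → Fin 3) //
      ¬ Disjoint (supp H D₀ (f j.1, j.2.1) (List.ofFn j.2.2))
        (supp H D₀ (f j'.1, j'.2.1) (List.ofFn j'.2.2))} ≤ c * (n + 1) ^ 2 * 3 ^ n

/-- Packet K: if `B` is independent and hits all paths with `n` edges, where `n` is smaller than
the girth, then the graph is 3-colourable. -/
def StmtColor : Prop :=
  ∀ (V W : Type u) [Finite V] (G : SimpleGraph V) (H : PG (V ⊕ W)) (n : ℕ) (B : V ⊕ W → Prop),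
    (∀ u v, G.Adj u v ↔ ∃ i, H.nb (Sum.inl u) i = Sum.inl v) →
    (n : ℕ∞) < G.egirth →
    (∀ u v, G.Adj u v → ¬ (B (Sum.inl u) ∧ B (Sum.inl v))) →
    (∀ v q (w : Fin n → Fin 3), ∃ k ≤ n, B (H.go (Sum.inl v, q) ((List.ofFn w).take k)).1) →
    G.Colorable 3

/-- The main theorem for maximum degree 4. -/
def Main4 : Prop :=
  ∃ g : ℕ, ∀ (V : Type u) [Fintype V] (G : SimpleGraph V) [DecidableRel G.Adj],
    G.maxDegree ≤ 4 → (g : ℕ∞) ≤ G.egirth → G.Colorable 3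

/-- Packet L: the final deduction. -/
def StmtFinal : Prop :=
  Main4.{u} → ∃ g : ℕ, 4 ≤ g ∧
    (∀ (V : Type u) [Fintype V] (G : SimpleGraph V) [DecidableRel G.Adj],
      (g : ℕ∞) ≤ G.egirth →
      (G.maxDegree ≤ 4 → G.Colorable 3) ∧ (G.maxDegree ≤ 5 → G.Colorable 4) ∧
      (G.maxDegree ≤ 6 → G.Colorable 5)) ∧
    ∀ k, k = 4 ∨ k = 5 ∨ k = 6 → ∀ (V : Type u) [Fintype V] (G : SimpleGraph V)
      [DecidableRel G.Adj], G.IsRegularOfDegree k →
      (∀ (v : V) (p : G.Walk v v), p.IsCycle → g ≤ p.length) → G.chromaticNumber ≠ k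

end Pool.Agent.Helper41.Girth4
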