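import Pool.Agent.Helper41.Girth4.Stmts

/-!
# Compact form of the certificate

The functions `GN`, `G0`, `G1` of a certificate are obtained from four sequences
`HN`, `H0`, `H1`, `O3 : ℕ → ℝ`.
-/

namespace Pool.Agent.Helper41.Girth4

open Finset

variable (P : Par)

/-- Compact certificate: `HN T = GN T T`, `H0 T = G0 T T`, `H1 T = G1 T` and
`O3 T = ∑ c in (T, K], (GN c T + G0 c T)`. -/
structure XC where
  HN : ℕ → ℝ
  H0 : ℕ → ℝ
  H1 : ℕ → ℝ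
  O3 : ℕ → ℝ

variable (x : XC)

/-- Left side of `Cert.iN` in compact form. -/
noncomputable def oN (T a : ℕ) : ℝ :=
  ∑ c ∈ Finset.range T, wN P a c T * (x.HN c + x.H0 c) +
    wN P a P.K T * (x.HN T + (if T < P.K then x.H0 T else 0) + x.O3 T)

/-- Left side of `Cert.i0` in compact form. -/
noncomputable def o0 (T a : ℕ) : ℝ :=
  ∑ c ∈ Finset.range T, wS P a c T * (x.HN c + x.H0 c) +
    wS P a P.K T * (x.HN T + x.O3 T) + bet P * wS P a P.K T * x.H1 T +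
    bet P * wA P a P.K T * x.H0 T + (1 / P.M) * wA P a P.K T * x.H1 T

/-- Left side of `Cert.i1` in compact form. -/
noncomputable def o1 (T : ℕ) : ℝ :=
  ∑ c ∈ Finset.range T, wA P T c T * (x.HN c + x.H0 c) +
    wA P T P.K T * (x.HN T + x.O3 T) + bet P * wA P T P.K T * x.H1 T +
    bet P * wA P T P.K T * x.H0 T + (1 / P.M) * wA P T P.K T * x.H1 T

/-- Compact certificate with rate `μ₀`. -/
structure XCert (μ₀ : ℝ) : Prop where
  posN : ∀ T ≤ P.K, 0 < x.HN T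
  pos0 : ∀ T < P.K, 0 < x.H0 T
  pos1 : ∀ T < P.K, 0 < x.H1 T
  pos3 : ∀ T < P.K, 0 < x.O3 T
  non3 : 0 ≤ x.O3 P.K
  nonwN : ∀ a c T, T ≤ P.K → 0 ≤ wN P a c T
  nonwA : ∀ a c T, T < P.K → 0 ≤ wA P a c T
  nonwS : ∀ a c T, T < P.K → 0 ≤ wS P a c T
  iN : ∀ T ≤ P.K, oN P x T T ≤ μ₀ * x.HN T
  i0 : ∀ T < P.K, o0 P x T T ≤ μ₀ * x.H0 T
  i1 : ∀ T < P.K, o1 P x T ≤ μ₀ * x.H1 T
  i3 : ∀ T < P.K,
    ∑ c ∈ Finset.Ioc T P.K, (oN P x c T + if c < P.K then o0 P x c T else 0) ≤ μ₀ * x.O3 T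

/-- Packet F1: a compact certificate with rate `μ₀ < μ` gives a certificate with rate `μ`. -/
def StmtXCert : Prop :=
  ∀ (P : Par) (x : XC) (μ₀ μ : ℝ), 0 < μ₀ → μ₀ < μ → XCert P x μ₀ →
    ∃ (GN G0 : ℕ → ℕ → ℝ) (G1 : ℕ → ℝ), Cert P μ GN G0 G1

end Pool.Agent.Helper41.Girth4
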